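import Pool.Agent.K7.H57.Cub.Free
import Pool.Agent.H353R2.Z2

set_option autoImplicit false

/-! Counting the tuples in a short interval whose product is a cube up to few primes. -/

namespace Pool.Agent.K7.H57.Cub
open Finset

/-- the elements of `(M, M + N]` with cubefree part in `[R, 2 R)` -/
noncomputable def SR (M N R : ℕ) : Finset ℕ := (Ioc M (M + N)).filter (fun n => R ≤ cf n ∧ cf n < 2 * R)

lemma mem_SR {M N R n : ℕ} : n ∈ SR M N R ↔ (M < n ∧ n ≤ M + N) ∧ R ≤ cf n ∧ cf n < 2 * R := by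
  unfold SR
  rw [mem_filter, mem_Ioc]

/-- the number of the elements of `SR` whose cubefree part is divisible by `D` -/
noncomputable def FD (M N R D : ℕ) : ℕ := ((SR M N R).filter (fun n => D ∣ cf n)).card

lemma FD_one (M N R D : ℕ) (hD : 1 ≤ D) : FD M N R D ≤ N / D + 1 := by
  unfold FD
  have h1 : (SR M N R).filter (fun n => D ∣ cf n) ⊆ (Ioc (M / D) ((M + N) / D)).image (fun k => D * k) := by
    intro n hn
    rw [mem_filter, mem_SR] at hn
    have hn0 : n ≠ 0 := by omega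
    obtain ⟨k, hk⟩ := hn.2.trans (cf_dvd hn0)
    rw [mem_image]
    refine ⟨k, ?_, hk.symm⟩
    rw [mem_Ioc]
    constructor
    · rw [Nat.div_lt_iff_lt_mul (by omega), mul_comm, ← hk]
      exact hn.1.1.1
    · rw [Nat.le_div_iff_mul_le (by omega), mul_comm, ← hk]
      exact hn.1.1.2
  refine (card_le_card h1).trans (card_image_le.trans ?_)
  rw [Nat.card_Ioc, Nat.add_div (by omega)]
  generalize M / D = u
  generalize N / D = v
  split_ifs <;> omega

lemma card_spread (X : Finset ℕ) (r N : ℕ) (hr : 1 ≤ r) (h : ∀ c ∈ X, ∀ c' ∈ X, c ≤ c' → (c' - c) ^ 3 * r ≤ N) :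
    (X.card : ℝ) ≤ 1 + ((N : ℝ) / r) ^ (1 / 3 : ℝ) := by
  rcases X.eq_empty_or_nonempty with h0 | h0
  · rw [h0, card_empty, Nat.cast_zero]
    positivity
  · have h1 : X ⊆ Icc (X.min' h0) (X.max' h0) := by
      intro c hc
      rw [mem_Icc]
      exact ⟨min'_le _ _ hc, le_max' _ _ hc⟩
    have hm : X.min' h0 ≤ X.max' h0 := min'_le_max' _ _
    have h2 := card_le_card h1
    rw [Nat.card_Icc] at h2
    have h3 := h _ (min'_mem X h0) _ (max'_mem X h0) hm
    obtain ⟨t, ht⟩ : ∃ t, t = X.max' h0 - X.min' h0 := ⟨_, rfl⟩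
    rw [← ht] at h3
    have h4 : X.card ≤ 1 + t := by omega
    have hr0 : (0 : ℝ) < r := by exact_mod_cast hr
    have h5 : (t : ℝ) ≤ ((N : ℝ) / r) ^ (1 / 3 : ℝ) := by
      have h6 : (t : ℝ) ^ 3 ≤ (N : ℝ) / r := by
        rw [le_div_iff₀ hr0]
        exact_mod_cast h3
      calc (t : ℝ) = ((t : ℝ) ^ 3) ^ (1 / 3 : ℝ) := by
            rw [← Real.rpow_natCast, ← Real.rpow_mul (Nat.cast_nonneg _)]
            norm_num
        _ ≤ _ := Real.rpow_le_rpow (by positivity) h6 (by norm_num)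
    calc (X.card : ℝ) ≤ ((1 + t : ℕ) : ℝ) := by exact_mod_cast h4
      _ = 1 + t := by push_cast; rfl
      _ ≤ _ := by linarith

lemma FD_two (M N R D : ℕ) (hR : 1 ≤ R) (hD : 1 ≤ D) : (FD M N R D : ℝ) ≤ 2 * R / D * (1 + ((N : ℝ) / R) ^ (1 / 3 : ℝ)) := by
  classical
  unfold FD
  have hR0 : (0 : ℝ) < R := by exact_mod_cast hR
  have hD0 : (0 : ℝ) < D := by exact_mod_cast hD
  have hmaps : ∀ n ∈ (SR M N R).filter (fun n => D ∣ cf n), cf n ∈ (Icc 1 (2 * R / D)).image (fun k => D * k) := by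
    intro n hn
    rw [mem_filter, mem_SR] at hn
    obtain ⟨k, hk⟩ := hn.2
    rw [mem_image]
    refine ⟨k, ?_, hk.symm⟩
    rw [mem_Icc]
    constructor
    · apply Nat.pos_of_ne_zero
      rintro rfl
      rw [mul_zero] at hk
      exact cf_ne n hk
    · rw [Nat.le_div_iff_mul_le (by omega), mul_comm, ← hk]
      omega
  rw [card_eq_sum_card_fiberwise hmaps]
  push_cast
  have hfib : ∀ r ∈ (Icc 1 (2 * R / D)).image (fun k => D * k),
      ((((SR M N R).filter (fun n => D ∣ cf n)).filter (fun n => cf n = r)).card : ℝ) ≤ 1 + ((N : ℝ) / R) ^ (1 / 3 : ℝ) := by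
    intro r _
    obtain ⟨Y, hY⟩ : ∃ Y, Y = ((SR M N R).filter (fun n => D ∣ cf n)).filter (fun n => cf n = r) := ⟨_, rfl⟩
    rw [← hY]
    have hYm : ∀ n ∈ Y, (M < n ∧ n ≤ M + N) ∧ R ≤ r ∧ cf n = r := by
      intro n hn
      rw [hY, mem_filter, mem_filter, mem_SR] at hn
      exact ⟨hn.1.1.1, by omega, hn.2⟩
    rcases Y.eq_empty_or_nonempty with h0 | h0
    · rw [h0, card_empty, Nat.cast_zero]
      positivity
    · obtain ⟨n₀, hn₀⟩ := h0
      have hRr : R ≤ r := (hYm n₀ hn₀).2.1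
      have hinj : Set.InjOn cr (Y : Set ℕ) := by
        intro n hn n' hn' h
        have h1 := hYm n hn
        have h2 := hYm n' hn'
        rw [← cf_mul_cr (by omega : n ≠ 0), ← cf_mul_cr (by omega : n' ≠ 0), h, h1.2.2, h2.2.2]
      rw [← card_image_of_injOn hinj]
      have h3 := card_spread (Y.image cr) r N (by omega) (by
        intro c hc c' hc' hcc
        rw [mem_image] at hc hc'
        obtain ⟨n, hn, rfl⟩ := hc
        obtain ⟨n', hn', rfl⟩ := hc'
        have h1 := hYm n hn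
        have h2 := hYm n' hn'
        have e1 := cf_mul_cr (by omega : n ≠ 0)
        have e2 := cf_mul_cr (by omega : n' ≠ 0)
        rw [h1.2.2] at e1
        rw [h2.2.2] at e2
        obtain ⟨t, ht⟩ := Nat.exists_eq_add_of_le hcc
        rw [ht, Nat.add_sub_cancel_left]
        rw [ht] at e2
        have h4 : r * (cr n + t) ^ 3 = r * cr n ^ 3 + r * (3 * cr n ^ 2 * t + 3 * cr n * t ^ 2) + t ^ 3 * r := by ring
        have h5 : 0 ≤ r * (3 * cr n ^ 2 * t + 3 * cr n * t ^ 2) := Nat.zero_le _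
        omega)
      refine h3.trans ?_
      have h6 : (N : ℝ) / r ≤ N / R := by
        apply div_le_div_of_nonneg_left (Nat.cast_nonneg _) hR0
        exact_mod_cast hRr
      have h7 : ((N : ℝ) / r) ^ (1 / 3 : ℝ) ≤ ((N : ℝ) / R) ^ (1 / 3 : ℝ) := Real.rpow_le_rpow (by positivity) h6 (by norm_num)
      linarith
  refine (sum_le_sum hfib).trans ?_
  rw [sum_const, nsmul_eq_mul]
  apply mul_le_mul_of_nonneg_right _ (by positivity)
  have h1 : (((Icc 1 (2 * R / D)).image (fun k => D * k)).card : ℝ) ≤ ((2 * R / D : ℕ) : ℝ) := by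
    have := card_image_le (s := Icc 1 (2 * R / D)) (f := fun k => D * k)
    rw [Nat.card_Icc, Nat.add_sub_cancel] at this
    exact_mod_cast this
  refine h1.trans ?_
  have := Nat.cast_div_le (α := ℝ) (m := 2 * R) (n := D)
  push_cast at this
  exact this

/-- **the step** -/
lemma step (N R : ℕ) (hN : 2 ≤ N) (hR : 1 ≤ R) : ∃ θ : ℝ, 0 ≤ θ ∧ θ ≤ 1 ∧ ∀ M D : ℕ, 1 ≤ D →
    (D : ℝ) ^ θ * FD M N R D ≤ 4 * (N : ℝ) ^ (1 / 2 : ℝ) * (R : ℝ) ^ (θ / 2) := by
  have hN0 : (0 : ℝ) < N := by exact_mod_cast (by omega : 0 < N)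
  have hN1 : (1 : ℝ) ≤ N := by exact_mod_cast (by omega : 1 ≤ N)
  have hR0 : (0 : ℝ) < R := by exact_mod_cast hR
  have hR1 : (1 : ℝ) ≤ R := by exact_mod_cast hR
  rcases le_or_gt N R with h | h
  · -- large cubefree parts
    have hR2 : (1 : ℝ) < R := by exact_mod_cast (by omega : 1 < R)
    have hlR : 0 < Real.log R := Real.log_pos hR2
    have hlN : 0 ≤ Real.log N := Real.log_nonneg hN1
    have hlNR : Real.log N ≤ Real.log R := Real.log_le_log hN0 (by exact_mod_cast h)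
    obtain ⟨θ, hθ⟩ : ∃ θ : ℝ, θ = Real.log N / Real.log R := ⟨_, rfl⟩
    have hθ0 : 0 ≤ θ := by rw [hθ]; positivity
    have hθ1 : θ ≤ 1 := by rw [hθ, div_le_one hlR]; exact hlNR
    have hRθ : (R : ℝ) ^ θ = N := by
      rw [Real.rpow_def_of_pos hR0, hθ, mul_div_cancel₀ _ hlR.ne', Real.exp_log hN0]
    have hRθ2 : (R : ℝ) ^ (θ / 2) = (N : ℝ) ^ (1 / 2 : ℝ) := by
      rw [← hRθ, ← Real.rpow_mul hR0.le]
      congr 1
      ring
    refine ⟨θ, hθ0, hθ1, fun M D hD => ?_⟩
    have hNN : 4 * (N : ℝ) ^ (1 / 2 : ℝ) * (N : ℝ) ^ (1 / 2 : ℝ) = 4 * N := by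
      rw [mul_assoc, ← Real.rpow_add hN0]
      norm_num
    rw [hRθ2, hNN]
    have hD0 : (0 : ℝ) < D := by exact_mod_cast hD
    have hD1 : (1 : ℝ) ≤ D := by exact_mod_cast hD
    rcases Nat.eq_zero_or_pos (FD M N R D) with h0 | h0
    · rw [h0, Nat.cast_zero, mul_zero]
      positivity
    · have hD2 : (D : ℝ) ≤ 2 * R := by
        unfold FD at h0
        obtain ⟨n, hn⟩ := card_pos.1 h0
        rw [mem_filter, mem_SR] at hn
        have h1 := Nat.le_of_dvd (Nat.pos_of_ne_zero (cf_ne n)) hn.2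
        exact_mod_cast (by omega : D ≤ 2 * R)
      have h1 : (FD M N R D : ℝ) ≤ (N : ℝ) / D + 1 := by
        have h2 := FD_one M N R D hD
        have h3 := Nat.cast_div_le (α := ℝ) (m := N) (n := D)
        have h4 : (FD M N R D : ℝ) ≤ ((N / D : ℕ) : ℝ) + 1 := by exact_mod_cast h2
        linarith
      have h2 : (D : ℝ) ^ θ ≤ D := by
        calc (D : ℝ) ^ θ ≤ (D : ℝ) ^ (1 : ℝ) := Real.rpow_le_rpow_of_exponent_le hD1 hθ1
          _ = D := Real.rpow_one _
      have h3 : (D : ℝ) ^ θ ≤ 2 * N := by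
        calc (D : ℝ) ^ θ ≤ (2 * (R : ℝ)) ^ θ := Real.rpow_le_rpow hD0.le hD2 hθ0
          _ = (2 : ℝ) ^ θ * (R : ℝ) ^ θ := Real.mul_rpow (by norm_num) hR0.le
          _ ≤ 2 * N := by
              rw [hRθ]
              apply mul_le_mul_of_nonneg_right _ hN0.le
              calc (2 : ℝ) ^ θ ≤ (2 : ℝ) ^ (1 : ℝ) := Real.rpow_le_rpow_of_exponent_le (by norm_num) hθ1
                _ = 2 := Real.rpow_one _
      calc (D : ℝ) ^ θ * FD M N R D ≤ (D : ℝ) ^ θ * ((N : ℝ) / D + 1) := mul_le_mul_of_nonneg_left h1 (by positivity)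
        _ = (D : ℝ) ^ θ / D * N + (D : ℝ) ^ θ := by ring
        _ ≤ 1 * N + 2 * N := by
            apply add_le_add _ h3
            apply mul_le_mul_of_nonneg_right _ hN0.le
            rw [div_le_one hD0]
            exact h2
        _ ≤ 4 * N := by linarith
  · -- small cubefree parts
    refine ⟨1, zero_le_one, le_refl 1, fun M D hD => ?_⟩
    have hD0 : (0 : ℝ) < D := by exact_mod_cast hD
    have hNR : (1 : ℝ) ≤ (N : ℝ) / R := by
      rw [one_le_div hR0]
      exact_mod_cast h.le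
    have h1 := FD_two M N R D hR hD
    obtain ⟨u, hu⟩ : ∃ u : ℝ, u = (N : ℝ) / R := ⟨_, rfl⟩
    rw [← hu] at h1 hNR
    have h2 : u ^ (1 / 3 : ℝ) ≤ u ^ (1 / 2 : ℝ) := Real.rpow_le_rpow_of_exponent_le hNR (by norm_num)
    have h3 : 1 ≤ u ^ (1 / 2 : ℝ) := Real.one_le_rpow hNR (by norm_num)
    have h4 : (R : ℝ) * u ^ (1 / 2 : ℝ) = (N : ℝ) ^ (1 / 2 : ℝ) * (R : ℝ) ^ (1 / 2 : ℝ) := by
      rw [hu, Real.div_rpow hN0.le hR0.le]
      have h5 : (R : ℝ) = (R : ℝ) ^ (1 / 2 : ℝ) * (R : ℝ) ^ (1 / 2 : ℝ) := by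
        rw [← Real.rpow_add hR0]
        norm_num
      have h6 : 0 < (R : ℝ) ^ (1 / 2 : ℝ) := by positivity
      field_simp
      conv_rhs => rw [sq, ← h5]
    rw [Real.rpow_one]
    calc (D : ℝ) * FD M N R D ≤ D * (2 * R / D * (1 + u ^ (1 / 3 : ℝ))) := mul_le_mul_of_nonneg_left h1 hD0.le
      _ = 2 * R * (1 + u ^ (1 / 3 : ℝ)) := by field_simp
      _ ≤ 2 * R * (u ^ (1 / 2 : ℝ) + u ^ (1 / 2 : ℝ)) := by
          apply mul_le_mul_of_nonneg_left _ (by positivity)
          linarith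
      _ = 4 * (R * u ^ (1 / 2 : ℝ)) := by ring
      _ = _ := by rw [h4]; ring

/-- the sum for one element -/
lemma one_sum (M N R V : ℕ) (hV : V ≠ 0) (θ E : ℝ) (h : ∀ D : ℕ, 1 ≤ D → (D : ℝ) ^ θ * FD M N R D ≤ E) :
    ∑ n ∈ SR M N R, (Nat.gcd (cf n) (V ^ 2) : ℝ) ^ θ ≤ ((V ^ 2).divisors.card : ℝ) * E := by
  classical
  have hmaps : ∀ n ∈ SR M N R, Nat.gcd (cf n) (V ^ 2) ∈ (V ^ 2).divisors := by
    intro n _
    rw [Nat.mem_divisors]
    exact ⟨Nat.gcd_dvd_right _ _, pow_ne_zero _ hV⟩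
  rw [← sum_fiberwise_of_maps_to hmaps, ← nsmul_eq_mul]
  apply sum_le_card_nsmul
  intro D hD
  have hD1 : 1 ≤ D := Nat.pos_of_mem_divisors hD
  have h1 : ∀ n ∈ (SR M N R).filter (fun n => Nat.gcd (cf n) (V ^ 2) = D), (Nat.gcd (cf n) (V ^ 2) : ℝ) ^ θ = (D : ℝ) ^ θ := by
    intro n hn
    rw [mem_filter] at hn
    rw [hn.2]
  rw [sum_congr rfl h1, sum_const, nsmul_eq_mul, mul_comm]
  refine le_trans ?_ (h D hD1)
  apply mul_le_mul_of_nonneg_left _ (by positivity)
  unfold FD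
  have h2 : (SR M N R).filter (fun n => Nat.gcd (cf n) (V ^ 2) = D) ⊆ (SR M N R).filter (fun n => D ∣ cf n) := by
    intro n hn
    rw [mem_filter] at hn ⊢
    refine ⟨hn.1, ?_⟩
    rw [← hn.2]
    exact Nat.gcd_dvd_left _ _
  exact_mod_cast card_le_card h2

lemma sum_cons {m : ℕ} (S : Finset ℕ) (F : (Fin (m + 1) → ℕ) → ℝ) :
    ∑ g ∈ Fintype.piFinset (fun _ : Fin (m + 1) => S), F g = ∑ x ∈ S, ∑ g' ∈ Fintype.piFinset (fun _ : Fin m => S), F (Fin.cons x g') := by
  rw [← sum_product']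
  symm
  refine sum_bij (fun z _ => Fin.cons z.1 z.2) ?_ ?_ ?_ ?_
  · intro z hz
    rw [mem_product, Fintype.mem_piFinset] at hz
    rw [Fintype.mem_piFinset]
    intro i
    refine Fin.cases ?_ (fun i => ?_) i
    · exact hz.1
    · exact hz.2 i
  · intro z _ z' _ h
    have := Fin.cons_inj.1 h
    exact Prod.ext this.1 this.2
  · intro g hg
    rw [Fintype.mem_piFinset] at hg
    refine ⟨(g 0, Fin.tail g), ?_, Fin.cons_self_tail g⟩
    rw [mem_product, Fintype.mem_piFinset]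
    exact ⟨hg 0, fun i => hg i.succ⟩
  · intro z _
    rfl

section seq
variable (S : Finset ℕ) (a : ℕ → ℕ) (f : ℕ → ℕ → ℝ) (hf : ∀ n V, 0 ≤ f n V) (T P : ℕ) (hT : 1 ≤ T) (ha : ∀ n, a n ≠ 0) (haT : ∀ n ∈ S, a n ≤ T)
  (K : ℝ) (hK : 0 ≤ K) (hS : ∀ V : ℕ, V ≠ 0 → V ≤ P → ∑ n ∈ S, f n V ≤ K)
include hf hT ha haT hK hS

lemma seq_pre (m : ℕ) : ∀ V : ℕ, V ≠ 0 → V * T ^ m ≤ P →
    ∑ g ∈ Fintype.piFinset (fun _ : Fin m => S), ∏ j, f (g j) (V * pre (fun i => a (g i)) j) ≤ K ^ m := by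
  induction m with
  | zero =>
    intro V _ _
    simp
  | succ m ih =>
    intro V hV hP
    rw [sum_cons]
    have h1 : ∀ x ∈ S, ∑ g' ∈ Fintype.piFinset (fun _ : Fin m => S),
        ∏ j, f ((Fin.cons x g' : Fin (m + 1) → ℕ) j) (V * pre (fun i => a ((Fin.cons x g' : Fin (m + 1) → ℕ) i)) j) ≤ f x V * K ^ m := by
      intro x hx
      have h2 : ∀ g' : Fin m → ℕ, ∏ j, f ((Fin.cons x g' : Fin (m + 1) → ℕ) j) (V * pre (fun i => a ((Fin.cons x g' : Fin (m + 1) → ℕ) i)) j) =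
          f x V * ∏ j, f (g' j) ((V * a x) * pre (fun i => a (g' i)) j) := by
        intro g'
        rw [Fin.prod_univ_succ]
        congr 1
        · rw [Fin.cons_zero]
          congr 1
          unfold pre
          rw [prod_eq_one, mul_one]
          intro i _
          rw [if_neg (Fin.not_lt_zero i)]
        · apply prod_congr rfl
          intro j _
          rw [Fin.cons_succ]
          congr 1
          unfold pre
          rw [Fin.prod_univ_succ, if_pos (Fin.succ_pos j), mul_assoc]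
          simp only [Fin.cons_zero]
          congr 2
          apply prod_congr rfl
          intro i _
          simp only [Fin.cons_succ, Fin.succ_lt_succ_iff]
      rw [sum_congr rfl (fun g' _ => h2 g'), ← mul_sum]
      apply mul_le_mul_of_nonneg_left _ (hf x V)
      apply ih (V * a x) (Nat.mul_ne_zero hV (ha x))
      calc V * a x * T ^ m ≤ V * T * T ^ m := by
            apply Nat.mul_le_mul_right
            exact Nat.mul_le_mul_left _ (haT x hx)
        _ = V * T ^ (m + 1) := by ring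
        _ ≤ P := hP
    refine (sum_le_sum h1).trans ?_
    rw [← sum_mul, pow_succ']
    apply mul_le_mul_of_nonneg_right _ (by positivity)
    apply hS V hV
    exact (Nat.le_mul_of_pos_right _ (Nat.pow_pos hT)).trans hP

lemma seq_post (m : ℕ) : ∀ V : ℕ, V ≠ 0 → V * T ^ m ≤ P →
    ∑ g ∈ Fintype.piFinset (fun _ : Fin m => S), ∏ j, f (g j) (V * post (fun i => a (g i)) j) ≤ K ^ m := by
  induction m with
  | zero =>
    intro V _ _
    simp
  | succ m ih =>
    intro V hV hP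
    rw [sum_cons, sum_comm]
    have hPm : V * T ^ m ≤ P := by
      refine le_trans (Nat.mul_le_mul_left _ ?_) hP
      exact Nat.pow_le_pow_right hT (by omega)
    have h1 : ∀ g' ∈ Fintype.piFinset (fun _ : Fin m => S), ∑ x ∈ S,
        ∏ j, f ((Fin.cons x g' : Fin (m + 1) → ℕ) j) (V * post (fun i => a ((Fin.cons x g' : Fin (m + 1) → ℕ) i)) j) ≤
        K * ∏ j, f (g' j) (V * post (fun i => a (g' i)) j) := by
      intro g' hg'
      rw [Fintype.mem_piFinset] at hg'
      have h2 : ∀ x, ∏ j, f ((Fin.cons x g' : Fin (m + 1) → ℕ) j) (V * post (fun i => a ((Fin.cons x g' : Fin (m + 1) → ℕ) i)) j) =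
          f x (V * ∏ i, a (g' i)) * ∏ j, f (g' j) (V * post (fun i => a (g' i)) j) := by
        intro x
        rw [Fin.prod_univ_succ]
        congr 1
        · rw [Fin.cons_zero]
          congr 2
          unfold post
          rw [Fin.prod_univ_succ, if_neg (lt_irrefl _), one_mul]
          apply prod_congr rfl
          intro i _
          rw [if_pos (Fin.succ_pos i)]
          simp only [Fin.cons_succ]
        · apply prod_congr rfl
          intro j _
          rw [Fin.cons_succ]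
          congr 2
          unfold post
          rw [Fin.prod_univ_succ, if_neg (Fin.not_lt_zero _), one_mul]
          apply prod_congr rfl
          intro i _
          simp only [Fin.cons_succ, Fin.succ_lt_succ_iff]
      rw [sum_congr rfl (fun x _ => h2 x), ← sum_mul]
      apply mul_le_mul_of_nonneg_right _ (prod_nonneg fun j _ => hf _ _)
      apply hS
      · exact Nat.mul_ne_zero hV (prod_ne_zero_iff.2 fun i _ => ha _)
      · refine le_trans (Nat.mul_le_mul_left _ ?_) hPm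
        calc ∏ i, a (g' i) ≤ ∏ _i : Fin m, T := prod_le_prod' fun i _ => haT _ (hg' i)
          _ = T ^ m := by rw [prod_const, card_univ, Fintype.card_fin]
    refine (sum_le_sum h1).trans ?_
    rw [← mul_sum, pow_succ']
    exact mul_le_mul_of_nonneg_left (ih V hV hPm) hK

end seq

end Pool.Agent.K7.H57.Cub
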