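import Pool.Agent.K7.H57.Cub.Cnt

set_option autoImplicit false

/-! The weighted number of the tuples in a short interval whose product is a cube up to few primes. -/

namespace Pool.Agent.K7.H57.Cub
open Finset

lemma weight_le {m : ℕ} (B R : ℕ) (hB : B ≠ 0) (hR : 1 ≤ R) (g s : Fin m → ℕ) (hg : ∀ j, g j ≠ 0) (hs : ∀ j, s j = 1 ∨ s j = 2)
    (hgR : ∀ j, R ≤ cf (g j)) (θ : ℝ) (hθ0 : 0 ≤ θ) (hθ1 : θ ≤ 1) :
    1 / (Zr (∏ j, g j ^ s j) B : ℝ) ≤ ((∏ j, (dl B (fun i => cf (g i)) j : ℝ) ^ θ) + ∏ j, (dr B (fun i => cf (g i)) j : ℝ) ^ θ) / 2 / ((R : ℝ) ^ (θ / 2)) ^ m := by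
  have hR0 : (0 : ℝ) < R := by exact_mod_cast hR
  obtain ⟨Z, hZ⟩ : ∃ Z, Z = Zr (∏ j, g j ^ s j) B := ⟨_, rfl⟩
  obtain ⟨l, hl⟩ : ∃ l, l = ∏ j, dl B (fun i => cf (g i)) j := ⟨_, rfl⟩
  obtain ⟨q, hq⟩ : ∃ q, q = ∏ j, dr B (fun i => cf (g i)) j := ⟨_, rfl⟩
  have hl0 : 0 < l := by
    rw [hl]
    exact prod_pos fun j _ => Nat.gcd_pos_of_pos_left _ (Nat.pos_of_ne_zero (cf_ne _))
  have hq0 : 0 < q := by
    rw [hq]
    exact prod_pos fun j _ => Nat.gcd_pos_of_pos_left _ (Nat.pos_of_ne_zero (cf_ne _))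
  have hZ0 : 0 < Z := by rw [hZ]; exact Zr_pos _ _
  have h1 : R ^ m ≤ l * q * Z ^ 2 := by
    have h2 := Nat.le_of_dvd (by rw [← hl, ← hq, ← hZ]; positivity) (struct B hB g s hg hs)
    rw [← hl, ← hq, ← hZ] at h2
    refine le_trans ?_ h2
    calc R ^ m = ∏ _j : Fin m, R := by rw [prod_const, card_univ, Fintype.card_fin]
      _ ≤ _ := prod_le_prod' fun j _ => hgR j
  have e1 : ∏ j, (dl B (fun i => cf (g i)) j : ℝ) ^ θ = (l : ℝ) ^ θ := by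
    rw [hl, Nat.cast_prod, Real.finsetProd_rpow _ _ (fun j _ => Nat.cast_nonneg _)]
  have e2 : ∏ j, (dr B (fun i => cf (g i)) j : ℝ) ^ θ = (q : ℝ) ^ θ := by
    rw [hq, Nat.cast_prod, Real.finsetProd_rpow _ _ (fun j _ => Nat.cast_nonneg _)]
  rw [e1, e2, ← hZ]
  have hl0' : (0 : ℝ) < l := by exact_mod_cast hl0
  have hq0' : (0 : ℝ) < q := by exact_mod_cast hq0
  have hZ0' : (0 : ℝ) < Z := by exact_mod_cast hZ0
  have hZ1 : (1 : ℝ) ≤ Z := by exact_mod_cast hZ0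
  obtain ⟨X, hX⟩ : ∃ X : ℝ, X = (l : ℝ) * q / (R : ℝ) ^ m := ⟨_, rfl⟩
  have hX0 : 0 < X := by rw [hX]; positivity
  have h2 : (1 / (Z : ℝ)) ^ 2 ≤ X := by
    rw [hX, one_div_pow, div_le_div_iff₀ (by positivity) (by positivity), one_mul]
    exact_mod_cast h1
  have h3 : 1 / (Z : ℝ) ≤ X ^ (1 / 2 : ℝ) := by
    rw [← Real.sqrt_eq_rpow]
    exact Real.le_sqrt_of_sq_le h2
  have h4 : 1 / (Z : ℝ) ≤ (1 / (Z : ℝ)) ^ θ := by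
    have h5 : 1 / (Z : ℝ) ≤ 1 := by rw [div_le_one hZ0']; exact hZ1
    calc 1 / (Z : ℝ) = (1 / (Z : ℝ)) ^ (1 : ℝ) := (Real.rpow_one _).symm
      _ ≤ _ := Real.rpow_le_rpow_of_exponent_ge (by positivity) h5 hθ1
  have h5 : (1 / (Z : ℝ)) ^ θ ≤ (X ^ (1 / 2 : ℝ)) ^ θ := Real.rpow_le_rpow (by positivity) h3 hθ0
  have h6 : (X ^ (1 / 2 : ℝ)) ^ θ = (l : ℝ) ^ (θ / 2) * (q : ℝ) ^ (θ / 2) / ((R : ℝ) ^ (θ / 2)) ^ m := by
    rw [← Real.rpow_mul hX0.le, hX, Real.div_rpow (by positivity) (by positivity), Real.mul_rpow hl0'.le hq0'.le]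
    have e3 : 1 / 2 * θ = θ / 2 := by ring
    rw [e3]
    congr 1
    rw [← Real.rpow_natCast, ← Real.rpow_natCast, ← Real.rpow_mul hR0.le, ← Real.rpow_mul hR0.le, mul_comm]
  have h7 : (l : ℝ) ^ (θ / 2) * (q : ℝ) ^ (θ / 2) ≤ ((l : ℝ) ^ θ + (q : ℝ) ^ θ) / 2 := by
    have e4 : (l : ℝ) ^ θ = (l : ℝ) ^ (θ / 2) * (l : ℝ) ^ (θ / 2) := by
      rw [← Real.rpow_add hl0']
      congr 1
      ring
    have e5 : (q : ℝ) ^ θ = (q : ℝ) ^ (θ / 2) * (q : ℝ) ^ (θ / 2) := by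
      rw [← Real.rpow_add hq0']
      congr 1
      ring
    rw [e4, e5]
    nlinarith [sq_nonneg ((l : ℝ) ^ (θ / 2) - (q : ℝ) ^ (θ / 2))]
  calc 1 / (Z : ℝ) ≤ _ := h4
    _ ≤ _ := h5
    _ = _ := h6
    _ ≤ _ := div_le_div_of_nonneg_right h7 (by positivity)

/-- **The weighted number of the tuples.** -/
theorem core (m : ℕ) (hm : 1 ≤ m) (ε : ℝ) (hε : 0 < ε) (A C : ℕ) : ∃ K : ℝ, 0 < K ∧ ∀ N M R B : ℕ, 2 ≤ N → M ≤ N ^ C → 1 ≤ R → B ≠ 0 → B ≤ N ^ A →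
    ∀ s : Fin m → ℕ, (∀ j, s j = 1 ∨ s j = 2) →
    ∑ g ∈ Fintype.piFinset (fun _ : Fin m => SR M N R), 1 / (Zr (∏ j, g j ^ s j) B : ℝ) ≤ K * (N : ℝ) ^ ((m : ℝ) / 2 + ε) := by
  classical
  have hmr : (1 : ℝ) ≤ m := by exact_mod_cast hm
  obtain ⟨E, hE⟩ : ∃ E, E = A + (C + 2) * m + 1 := ⟨_, rfl⟩
  have hEr : (1 : ℝ) ≤ E := by exact_mod_cast (by omega : 1 ≤ E)
  obtain ⟨D, hD0, hD⟩ := H353.divisor_bound_real (ε / (2 * E * m)) (by positivity)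
  refine ⟨(4 * D) ^ m, by positivity, fun N M R B hN hM hR hB hBA s hs => ?_⟩
  have hN0 : (0 : ℝ) < N := by exact_mod_cast (by omega : 0 < N)
  have hN1 : (1 : ℝ) ≤ N := by exact_mod_cast (by omega : 1 ≤ N)
  have hR0 : (0 : ℝ) < R := by exact_mod_cast hR
  obtain ⟨θ, hθ0, hθ1, hθ⟩ := step N R hN hR
  obtain ⟨T, hT⟩ : ∃ T, T = M + N := ⟨_, rfl⟩
  have hT1 : 1 ≤ T := by omega
  have hTN : T ≤ N ^ (C + 2) := by
    have h1 : N ^ C ≤ N ^ (C + 1) := Nat.pow_le_pow_right (by omega) (by omega)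
    have h2 : N ≤ N ^ (C + 1) := Nat.le_self_pow (by omega) N
    have h3 : N ^ (C + 2) = N ^ (C + 1) * N := by ring
    have h4 : N ^ (C + 1) * 2 ≤ N ^ (C + 1) * N := Nat.mul_le_mul_left _ hN
    omega
  obtain ⟨P, hP⟩ : ∃ P, P = B * T ^ m := ⟨_, rfl⟩
  have hPN : P ≤ N ^ E := by
    rw [hP]
    calc B * T ^ m ≤ N ^ A * (N ^ (C + 2)) ^ m := Nat.mul_le_mul hBA (Nat.pow_le_pow_left hTN m)
      _ = N ^ (A + (C + 2) * m) := by rw [← pow_mul, ← pow_add]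
      _ ≤ N ^ E := Nat.pow_le_pow_right (by omega) (by omega)
  obtain ⟨K₁, hK₁⟩ : ∃ K₁ : ℝ, K₁ = (D * (N : ℝ) ^ (ε / m)) * (4 * (N : ℝ) ^ (1 / 2 : ℝ) * (R : ℝ) ^ (θ / 2)) := ⟨_, rfl⟩
  have hK₁0 : 0 ≤ K₁ := by rw [hK₁]; positivity
  obtain ⟨f, hf⟩ : ∃ f : ℕ → ℕ → ℝ, f = fun n V => (Nat.gcd (cf n) (V ^ 2) : ℝ) ^ θ := ⟨_, rfl⟩
  have hf0 : ∀ n V, 0 ≤ f n V := fun n V => by rw [hf]; positivity
  have hS : ∀ V : ℕ, V ≠ 0 → V ≤ P → ∑ n ∈ SR M N R, f n V ≤ K₁ := by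
    intro V hV hVP
    rw [hf, hK₁]
    refine (one_sum M N R V hV θ _ (fun D hD => hθ M D hD)).trans ?_
    apply mul_le_mul_of_nonneg_right _ (by positivity)
    refine (hD (V ^ 2) (pow_ne_zero _ hV)).trans ?_
    apply mul_le_mul_of_nonneg_left _ hD0.le
    have h1 : ((V ^ 2 : ℕ) : ℝ) ≤ (N : ℝ) ^ ((2 * E : ℕ) : ℝ) := by
      rw [Real.rpow_natCast]
      have : V ^ 2 ≤ N ^ (2 * E) := by
        calc V ^ 2 ≤ (N ^ E) ^ 2 := Nat.pow_le_pow_left (hVP.trans hPN) 2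
          _ = N ^ (2 * E) := by rw [← pow_mul, mul_comm]
      exact_mod_cast this
    calc ((V ^ 2 : ℕ) : ℝ) ^ (ε / (2 * E * m)) ≤ ((N : ℝ) ^ ((2 * E : ℕ) : ℝ)) ^ (ε / (2 * E * m)) := Real.rpow_le_rpow (Nat.cast_nonneg _) h1 (by positivity)
      _ = (N : ℝ) ^ (ε / m) := by
          rw [← Real.rpow_mul hN0.le]
          congr 1
          push_cast
          field_simp
  have haT : ∀ n ∈ SR M N R, cf n ≤ T := by
    intro n hn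
    rw [mem_SR] at hn
    have := cf_le (by omega : n ≠ 0)
    omega
  have h1 := seq_pre (SR M N R) cf f hf0 T P hT1 cf_ne haT K₁ hK₁0 hS m B hB (by rw [hP])
  have h2 := seq_post (SR M N R) cf f hf0 T P hT1 cf_ne haT K₁ hK₁0 hS m B hB (by rw [hP])
  have hQ0 : (0 : ℝ) < ((R : ℝ) ^ (θ / 2)) ^ m := by positivity
  have h3 : ∀ g ∈ Fintype.piFinset (fun _ : Fin m => SR M N R), 1 / (Zr (∏ j, g j ^ s j) B : ℝ) ≤
      (∏ j, f (g j) (B * pre (fun i => cf (g i)) j) + ∏ j, f (g j) (B * post (fun i => cf (g i)) j)) / 2 / ((R : ℝ) ^ (θ / 2)) ^ m := by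
    intro g hg
    rw [Fintype.mem_piFinset] at hg
    have h4 := weight_le B R hB hR g s (fun j => by have := mem_SR.1 (hg j); omega) hs (fun j => (mem_SR.1 (hg j)).2.1) θ hθ0 hθ1
    rw [hf]
    exact h4
  refine (sum_le_sum h3).trans ?_
  rw [← sum_div, ← sum_div, sum_add_distrib, div_le_iff₀ hQ0]
  have h5 : (4 * D) ^ m * (N : ℝ) ^ ((m : ℝ) / 2 + ε) * ((R : ℝ) ^ (θ / 2)) ^ m = K₁ ^ m := by
    rw [hK₁]
    have e1 : (N : ℝ) ^ ((m : ℝ) / 2 + ε) = ((N : ℝ) ^ (1 / 2 : ℝ)) ^ m * ((N : ℝ) ^ (ε / m)) ^ m := by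
      rw [← Real.rpow_natCast, ← Real.rpow_natCast, ← Real.rpow_mul hN0.le, ← Real.rpow_mul hN0.le, ← Real.rpow_add hN0]
      congr 1
      field_simp
    rw [e1]
    ring
  rw [h5]
  linarith

end Pool.Agent.K7.H57.Cub
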