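import Mathlib

set_option autoImplicit false

/-! Cubefree parts of integers; the structure of the tuples whose product is a cube up to few primes. -/

namespace Pool.Agent.K7.H57.Cub
open Finset

/-- the cubefree part -/
noncomputable def cf (n : ℕ) : ℕ := (n.factorization.mapRange (fun e => e % 3) rfl).prod (fun p e => p ^ e)

/-- the root of the cube -/
noncomputable def cr (n : ℕ) : ℕ := (n.factorization.mapRange (fun e => e / 3) rfl).prod (fun p e => p ^ e)

lemma cf_fact (n : ℕ) : (cf n).factorization = n.factorization.mapRange (fun e => e % 3) rfl := by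
  unfold cf
  apply Nat.prod_pow_factorization_eq_self
  intro p hp
  have h1 := Finsupp.support_mapRange (hf := rfl) (f := fun e : ℕ => e % 3) (g := n.factorization) hp
  exact Nat.prime_of_mem_primeFactors (by rwa [Nat.support_factorization] at h1)

lemma cr_fact (n : ℕ) : (cr n).factorization = n.factorization.mapRange (fun e => e / 3) rfl := by
  unfold cr
  apply Nat.prod_pow_factorization_eq_self
  intro p hp
  have h1 := Finsupp.support_mapRange (hf := rfl) (f := fun e : ℕ => e / 3) (g := n.factorization) hp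
  exact Nat.prime_of_mem_primeFactors (by rwa [Nat.support_factorization] at h1)

lemma prod_ne {f : ℕ →₀ ℕ} (hf : ∀ p ∈ f.support, p.Prime) : f.prod (fun p e => p ^ e) ≠ 0 := by
  rw [Finsupp.prod, prod_ne_zero_iff]
  intro p hp
  exact pow_ne_zero _ (hf p hp).ne_zero

lemma cf_ne (n : ℕ) : cf n ≠ 0 := by
  apply prod_ne
  intro p hp
  have h1 := Finsupp.support_mapRange (hf := rfl) (f := fun e : ℕ => e % 3) (g := n.factorization) hp
  exact Nat.prime_of_mem_primeFactors (by rwa [Nat.support_factorization] at h1)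

lemma cr_ne (n : ℕ) : cr n ≠ 0 := by
  apply prod_ne
  intro p hp
  have h1 := Finsupp.support_mapRange (hf := rfl) (f := fun e : ℕ => e / 3) (g := n.factorization) hp
  exact Nat.prime_of_mem_primeFactors (by rwa [Nat.support_factorization] at h1)

lemma cf_app (n p : ℕ) : (cf n).factorization p = n.factorization p % 3 := by
  rw [cf_fact]
  rfl

lemma cf_mul_cr {n : ℕ} (hn : n ≠ 0) : cf n * cr n ^ 3 = n := by
  apply Nat.eq_of_factorization_eq (Nat.mul_ne_zero (cf_ne n) (pow_ne_zero _ (cr_ne n))) hn
  intro p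
  rw [Nat.factorization_mul (cf_ne n) (pow_ne_zero _ (cr_ne n)), Nat.factorization_pow, cf_fact, cr_fact]
  show n.factorization p % 3 + 3 * (n.factorization p / 3) = _
  omega

lemma cf_le {n : ℕ} (hn : n ≠ 0) : cf n ≤ n := by
  conv_rhs => rw [← cf_mul_cr hn]
  exact Nat.le_mul_of_pos_right _ (pow_pos (Nat.pos_of_ne_zero (cr_ne n)) 3)

lemma cf_dvd {n : ℕ} (hn : n ≠ 0) : cf n ∣ n := by
  conv_rhs => rw [← cf_mul_cr hn]
  exact dvd_mul_right _ _

/-- the product of the elements before `j` -/
def pre {m : ℕ} (a : Fin m → ℕ) (j : Fin m) : ℕ := ∏ i, if i < j then a i else 1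

/-- the product of the elements after `j` -/
def post {m : ℕ} (a : Fin m → ℕ) (j : Fin m) : ℕ := ∏ i, if j < i then a i else 1

/-- the product of the primes of `q` which do not divide `B` and occur with exponents not divisible by three -/
def Zr (q B : ℕ) : ℕ := ∏ p ∈ q.primeFactors.filter (fun p => ¬ 3 ∣ q.factorization p ∧ ¬ p ∣ B), p

lemma Zr_pos (q B : ℕ) : 0 < Zr q B := by
  unfold Zr
  apply prod_pos
  intro p hp
  rw [mem_filter] at hp
  exact (Nat.prime_of_mem_primeFactors hp.1).pos

lemma Zr_fact {q B p : ℕ} (hp : p.Prime) (hq : q ≠ 0) (h : ¬ 3 ∣ q.factorization p) (hB : ¬ p ∣ B) : 1 ≤ (Zr q B).factorization p := by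
  have h1 : p ∣ q := by
    by_contra hcon
    apply h
    rw [Nat.factorization_eq_zero_of_not_dvd hcon]
    exact dvd_zero 3
  have h2 : p ∣ Zr q B := by
    unfold Zr
    apply dvd_prod_of_mem (fun p => p)
    rw [mem_filter, Nat.mem_primeFactors]
    exact ⟨⟨hp, h1, hq⟩, h, hB⟩
  exact (hp.dvd_iff_one_le_factorization (Zr_pos q B).ne').1 h2

/-- the combinatorial lemma -/
lemma comb {m : ℕ} (x s : Fin m → ℕ) (hx : ∀ j, x j ≤ 2) (hs : ∀ j, s j = 1 ∨ s j = 2) :
    ∑ j, x j ≤ ∑ j, min (x j) (2 * ∑ i, if i < j then x i else 0) + ∑ j, min (x j) (2 * ∑ i, if j < i then x i else 0) +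
      2 * (if 3 ∣ ∑ j, s j * x j then 0 else 1) := by
  classical
  by_cases h : ∀ j, x j ≠ 0 → ∃ i, i ≠ j ∧ x i ≠ 0
  · have h1 : ∀ j, x j ≤ min (x j) (2 * ∑ i, if i < j then x i else 0) + min (x j) (2 * ∑ i, if j < i then x i else 0) := by
      intro j
      by_cases hj : x j = 0
      · rw [hj]
        exact Nat.zero_le _
      · obtain ⟨i, hij, hi⟩ := h j hj
        have h2 := hx j
        rcases lt_or_gt_of_ne hij with h3 | h3
        · have h4 : x i ≤ ∑ i, if i < j then x i else 0 := by
            have := single_le_sum (f := fun i => if i < j then x i else 0) (fun i _ => Nat.zero_le _) (mem_univ i)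
            simp only [if_pos h3] at this
            exact this
          omega
        · have h4 : x i ≤ ∑ i, if j < i then x i else 0 := by
            have := single_le_sum (f := fun i => if j < i then x i else 0) (fun i _ => Nat.zero_le _) (mem_univ i)
            simp only [if_pos h3] at this
            exact this
          omega
    calc ∑ j, x j ≤ ∑ j, (min (x j) (2 * ∑ i, if i < j then x i else 0) + min (x j) (2 * ∑ i, if j < i then x i else 0)) := sum_le_sum fun j _ => h1 j
      _ = ∑ j, min (x j) (2 * ∑ i, if i < j then x i else 0) + ∑ j, min (x j) (2 * ∑ i, if j < i then x i else 0) := sum_add_distrib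
      _ ≤ _ := Nat.le_add_right _ _
  · push Not at h
    obtain ⟨j, hj, hi⟩ := h
    have h1 : ∑ j, x j = x j := sum_eq_single j (fun i _ hij => hi i hij) (fun h => absurd (mem_univ j) h)
    have h2 : ∑ j, s j * x j = s j * x j := sum_eq_single j (fun i _ hij => by rw [hi i hij, mul_zero]) (fun h => absurd (mem_univ j) h)
    rw [h1, h2]
    have h3 := hx j
    have h4 : ¬ 3 ∣ s j * x j := by
      have h5 : x j = 1 ∨ x j = 2 := by omega
      rcases hs j with h6 | h6 <;> rcases h5 with h7 | h7 <;> rw [h6, h7] <;> decide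
    rw [if_neg h4]
    omega

lemma pre_fact {m : ℕ} (a : Fin m → ℕ) (ha : ∀ i, a i ≠ 0) (j : Fin m) (p : ℕ) :
    (pre a j).factorization p = ∑ i, if i < j then (a i).factorization p else 0 := by
  unfold pre
  rw [Nat.factorization_prod_apply]
  · apply sum_congr rfl
    intro i _
    split_ifs
    · rfl
    · rw [Nat.factorization_one]
      rfl
  · intro i _
    split_ifs
    · exact ha i
    · exact one_ne_zero

lemma post_fact {m : ℕ} (a : Fin m → ℕ) (ha : ∀ i, a i ≠ 0) (j : Fin m) (p : ℕ) :
    (post a j).factorization p = ∑ i, if j < i then (a i).factorization p else 0 := by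
  unfold post
  rw [Nat.factorization_prod_apply]
  · apply sum_congr rfl
    intro i _
    split_ifs
    · rfl
    · rw [Nat.factorization_one]
      rfl
  · intro i _
    split_ifs
    · exact ha i
    · exact one_ne_zero

lemma pre_ne {m : ℕ} (a : Fin m → ℕ) (ha : ∀ i, a i ≠ 0) (j : Fin m) : pre a j ≠ 0 := by
  unfold pre
  rw [prod_ne_zero_iff]
  intro i _
  split_ifs
  · exact ha i
  · exact one_ne_zero

lemma post_ne {m : ℕ} (a : Fin m → ℕ) (ha : ∀ i, a i ≠ 0) (j : Fin m) : post a j ≠ 0 := by
  unfold post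
  rw [prod_ne_zero_iff]
  intro i _
  split_ifs
  · exact ha i
  · exact one_ne_zero

/-- the divisors shared with the elements before -/
noncomputable def dl {m : ℕ} (B : ℕ) (a : Fin m → ℕ) (j : Fin m) : ℕ := Nat.gcd (a j) ((B * pre a j) ^ 2)

/-- the divisors shared with the elements after -/
noncomputable def dr {m : ℕ} (B : ℕ) (a : Fin m → ℕ) (j : Fin m) : ℕ := Nat.gcd (a j) ((B * post a j) ^ 2)

/-- **The structure of the tuples.** -/
theorem struct {m : ℕ} (B : ℕ) (hB : B ≠ 0) (g s : Fin m → ℕ) (hg : ∀ j, g j ≠ 0) (hs : ∀ j, s j = 1 ∨ s j = 2) :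
    ∏ j, cf (g j) ∣ (∏ j, dl B (fun i => cf (g i)) j) * (∏ j, dr B (fun i => cf (g i)) j) * (Zr (∏ j, g j ^ s j) B) ^ 2 := by
  classical
  obtain ⟨a, ha⟩ : ∃ a : Fin m → ℕ, a = fun i => cf (g i) := ⟨_, rfl⟩
  have ha0 : ∀ i, a i ≠ 0 := fun i => by rw [ha]; exact cf_ne _
  rw [← ha]
  have hq0 : ∏ j, g j ^ s j ≠ 0 := prod_ne_zero_iff.2 fun j _ => pow_ne_zero _ (hg j)
  have hl0 : ∀ j, dl B a j ≠ 0 := fun j => Nat.gcd_ne_zero_left (ha0 j)
  have hr0 : ∀ j, dr B a j ≠ 0 := fun j => Nat.gcd_ne_zero_left (ha0 j)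
  have hL0 : ∏ j, dl B a j ≠ 0 := prod_ne_zero_iff.2 fun j _ => hl0 j
  have hR0 : ∏ j, dr B a j ≠ 0 := prod_ne_zero_iff.2 fun j _ => hr0 j
  have hZ0 : Zr (∏ j, g j ^ s j) B ^ 2 ≠ 0 := pow_ne_zero _ (Zr_pos _ _).ne'
  rw [← Nat.factorization_prime_le_iff_dvd (prod_ne_zero_iff.2 fun j _ => ha0 j) (Nat.mul_ne_zero (Nat.mul_ne_zero hL0 hR0) hZ0)]
  intro p hp
  rw [Nat.factorization_mul (Nat.mul_ne_zero hL0 hR0) hZ0, Nat.factorization_mul hL0 hR0, Nat.factorization_pow]
  show _ ≤ (∏ j, dl B a j).factorization p + (∏ j, dr B a j).factorization p + 2 * (Zr (∏ j, g j ^ s j) B).factorization p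
  rw [Nat.factorization_prod_apply (fun j _ => ha0 j), Nat.factorization_prod_apply (fun j _ => hl0 j), Nat.factorization_prod_apply (fun j _ => hr0 j)]
  obtain ⟨x, hx⟩ : ∃ x : Fin m → ℕ, x = fun j => (a j).factorization p := ⟨_, rfl⟩
  have hx2 : ∀ j, x j ≤ 2 := by
    intro j
    rw [hx, ha]
    show (cf (g j)).factorization p ≤ 2
    rw [cf_app]
    omega
  have hl : ∀ j, (dl B a j).factorization p = min (x j) (2 * (B.factorization p + ∑ i, if i < j then x i else 0)) := by
    intro j
    unfold dl
    rw [Nat.factorization_gcd (ha0 j) (pow_ne_zero _ (Nat.mul_ne_zero hB (pre_ne a ha0 j))), Nat.factorization_pow, Nat.factorization_mul hB (pre_ne a ha0 j)]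
    show min ((a j).factorization p) (2 * (B.factorization p + (pre a j).factorization p)) = _
    rw [pre_fact a ha0, hx]
  have hr : ∀ j, (dr B a j).factorization p = min (x j) (2 * (B.factorization p + ∑ i, if j < i then x i else 0)) := by
    intro j
    unfold dr
    rw [Nat.factorization_gcd (ha0 j) (pow_ne_zero _ (Nat.mul_ne_zero hB (post_ne a ha0 j))), Nat.factorization_pow, Nat.factorization_mul hB (post_ne a ha0 j)]
    show min ((a j).factorization p) (2 * (B.factorization p + (post a j).factorization p)) = _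
    rw [post_fact a ha0, hx]
  have e1 : ∑ j, (a j).factorization p = ∑ j, x j := by rw [hx]
  rw [e1, sum_congr rfl (fun j _ => hl j), sum_congr rfl (fun j _ => hr j)]
  by_cases hpB : p ∣ B
  · have h1 : 1 ≤ B.factorization p := (hp.dvd_iff_one_le_factorization hB).1 hpB
    have h2 : ∑ j, x j ≤ ∑ j, min (x j) (2 * (B.factorization p + ∑ i, if i < j then x i else 0)) := by
      apply sum_le_sum
      intro j _
      have := hx2 j
      omega
    omega
  · have hB0 : B.factorization p = 0 := Nat.factorization_eq_zero_of_not_dvd hpB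
    rw [hB0]
    simp only [zero_add]
    have h1 := comb x s hx2 hs
    have h2 : (if 3 ∣ ∑ j, s j * x j then 0 else 1) ≤ (Zr (∏ j, g j ^ s j) B).factorization p := by
      split_ifs with h
      · exact Nat.zero_le _
      · apply Zr_fact hp hq0 _ hpB
        intro h3
        apply h
        rw [Nat.factorization_prod_apply (fun j _ => pow_ne_zero _ (hg j))] at h3
        have h4 : ∀ j, (g j ^ s j).factorization p = s j * x j + 3 * (s j * ((g j).factorization p / 3)) := by
          intro j
          rw [Nat.factorization_pow, hx, ha]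
          show s j * (g j).factorization p = s j * (cf (g j)).factorization p + _
          rw [cf_app]
          have h5 := Nat.mod_add_div ((g j).factorization p) 3
          calc s j * (g j).factorization p = s j * ((g j).factorization p % 3 + 3 * ((g j).factorization p / 3)) := by rw [h5]
            _ = _ := by ring
        rw [sum_congr rfl (fun j _ => h4 j), sum_add_distrib, ← mul_sum] at h3
        exact (Nat.dvd_add_left (dvd_mul_right 3 _)).1 h3
    omega

end Pool.Agent.K7.H57.Cub
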