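import Pool.Agent.K7.H57.Cub.Cnt
import Pool.Agent.X22.MT5

set_option autoImplicit false

/-! The decomposition of the sums over short intervals. -/

namespace Pool.Agent.K7.H57.Cub
open Finset
open Pool.Agent.X22.MT (sm mem_sm nn mem_nn smooth_sum sm_card)
open Pool.Agent.X22.ND (absorb)

/-- the elements of `SR` coprime to `L` -/
noncomputable def SL (L M N R : ℕ) : Finset ℕ := (SR M N R).filter (fun c => c.Coprime L)

lemma mem_SL {L M N R n : ℕ} : n ∈ SL L M N R ↔ ((M < n ∧ n ≤ M + N) ∧ R ≤ cf n ∧ cf n < 2 * R) ∧ n.Coprime L := by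
  unfold SL
  rw [mem_filter, mem_SR]

/-- **The decomposition.** -/
theorem reduce (L : ℕ) (hL : L ≠ 0) (C : ℕ) (δ : ℝ) (hδ : 0 < δ) : ∃ N₀ : ℕ, ∀ N : ℕ, N₀ ≤ N → ∀ M M' : ℕ, M ≤ N ^ C → M' ≤ M + N →
    ∀ (w χ : ℕ → ℂ), (∀ n, ‖χ n‖ ≤ 1) → (∀ n n' : ℕ, 1 ≤ n → 1 ≤ n' → χ (n * n') = χ n * χ n') →
    (∀ a j : ℕ, 1 ≤ a → a ≤ N ^ (C + 2) → j ≤ N ^ (C + 2) →
      ‖∑ c ∈ SL L (M / a) N (2 ^ j), (if M < a * c ∧ a * c ≤ M' then w (a * c) else 0) * χ c‖ ≤ (N : ℝ) ^ (1 / 2 + δ / 2)) →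
    ‖∑ n ∈ Ioc M M', w n * χ n‖ ≤ (N : ℝ) ^ (1 / 2 + δ) := by
  classical
  obtain ⟨D, hD0, hD⟩ := sm_card L hL (δ / (4 * (C + 2))) (by positivity)
  obtain ⟨N₁, hN₁⟩ := absorb (2 * D * (C + 2)) (δ / 4) (by positivity) (by positivity)
  refine ⟨N₁ + 2, fun N hN M M' hM hM' w χ hχ1 hχm h => ?_⟩
  have hN2 : 2 ≤ N := by omega
  have hN0 : (0 : ℝ) < N := by exact_mod_cast (by omega : 0 < N)
  have hN1 : (1 : ℝ) ≤ N := by exact_mod_cast (by omega : 1 ≤ N)
  obtain ⟨x, hx⟩ : ∃ x, x = N ^ (C + 2) := ⟨_, rfl⟩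
  have hx1 : 1 ≤ x := by rw [hx]; exact Nat.one_le_pow _ _ (by omega)
  have hMx : M' ≤ x := by
    have h1 : N ^ C ≤ N ^ (C + 1) := Nat.pow_le_pow_right (by omega) (by omega)
    have h2 : N ≤ N ^ (C + 1) := Nat.le_self_pow (by omega) N
    have h3 : N ^ (C + 2) = N ^ (C + 1) * N := by ring
    have h4 : N ^ (C + 1) * 2 ≤ N ^ (C + 1) * N := Nat.mul_le_mul_left _ hN2
    omega
  rw [← hx] at h
  obtain ⟨G, hG⟩ : ∃ G : ℕ → ℂ, G = fun n => if M < n ∧ n ≤ M' then w n * χ n else 0 := ⟨_, rfl⟩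
  have e1 : ∑ n ∈ Ioc M M', w n * χ n = ∑ n ∈ Icc 1 x, G n := by
    rw [hG, ← sum_filter]
    apply sum_congr _ (fun _ _ => rfl)
    ext n
    rw [mem_Ioc, mem_filter, mem_Icc]
    constructor
    · intro h1
      exact ⟨⟨by omega, by omega⟩, h1⟩
    · intro h1
      exact h1.2
  rw [e1, smooth_sum L x G]
  obtain ⟨J, hJ⟩ : ∃ J, J = Nat.log 2 x + 1 := ⟨_, rfl⟩
  have hJx : J ≤ x + 1 := by
    rw [hJ]
    have := Nat.log_le_self 2 x
    omega
  have h2 : ∀ a ∈ sm L x, ‖∑ c ∈ nn L x, if a * c ≤ x then G (a * c) else 0‖ ≤ J * (N : ℝ) ^ (1 / 2 + δ / 2) := by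
    intro a ha
    rw [mem_sm] at ha
    obtain ⟨Y, hY⟩ : ∃ Y, Y = (Ioc (M / a) (M / a + N)).filter (fun c => c.Coprime L) := ⟨_, rfl⟩
    have hWin : ∀ c, M < a * c ∧ a * c ≤ M' → M / a < c ∧ c ≤ M / a + N := by
      intro c hc
      constructor
      · rw [Nat.div_lt_iff_lt_mul (by omega), mul_comm]
        exact hc.1
      · by_contra hcon
        push Not at hcon
        have h3 : M < (M / a + 1) * a := by
          have := Nat.lt_mul_div_succ M (by omega : 0 < a)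
          rw [mul_comm] at this
          exact this
        have h4 : (M / a + N + 1) * a ≤ a * c := by
          rw [mul_comm]
          exact Nat.mul_le_mul_left a hcon
        have h5 : (M / a + N + 1) * a = (M / a + 1) * a + N * a := by ring
        have h6 : N ≤ N * a := Nat.le_mul_of_pos_right _ (by omega)
        have h7 : M < M / a * a + a := by rw [add_mul, one_mul] at h3; exact h3
        have h8 : (M / a + 1) * a = M / a * a + a := by ring
        generalize M / a * a = z at *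
        omega
    have e2 : ∑ c ∈ nn L x, (if a * c ≤ x then G (a * c) else 0) =
        χ a * ∑ c ∈ Y, (if M < a * c ∧ a * c ≤ M' then w (a * c) else 0) * χ c := by
      have e3 : ∑ c ∈ nn L x, (if a * c ≤ x then G (a * c) else 0) = ∑ c ∈ (nn L x).filter (fun c => M < a * c ∧ a * c ≤ M'), w (a * c) * χ (a * c) := by
        rw [sum_filter]
        apply sum_congr rfl
        intro c _
        rw [hG]
        by_cases h5 : M < a * c ∧ a * c ≤ M'
        · rw [if_pos (by omega)]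
        · simp only [if_neg h5]
          split_ifs <;> rfl
      have e4 : ∑ c ∈ Y, (if M < a * c ∧ a * c ≤ M' then w (a * c) else 0) * χ c = ∑ c ∈ Y.filter (fun c => M < a * c ∧ a * c ≤ M'), w (a * c) * χ c := by
        rw [sum_filter]
        apply sum_congr rfl
        intro c _
        split_ifs
        · rfl
        · rw [zero_mul]
      rw [e3, e4, mul_sum]
      have e5 : (nn L x).filter (fun c => M < a * c ∧ a * c ≤ M') = Y.filter (fun c => M < a * c ∧ a * c ≤ M') := by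
        ext c
        rw [mem_filter, mem_nn, hY, mem_filter, mem_filter, mem_Ioc]
        constructor
        · intro h5
          exact ⟨⟨hWin c h5.2, h5.1.2⟩, h5.2⟩
        · intro h5
          have h6 : 1 ≤ c := lt_of_le_of_lt (Nat.zero_le _) h5.1.1.1
          have h7 : c ≤ a * c := Nat.le_mul_of_pos_left c (by omega)
          exact ⟨⟨⟨h6, by omega⟩, h5.1.2⟩, h5.2⟩
      rw [e5]
      apply sum_congr rfl
      intro c hc
      rw [mem_filter, hY, mem_filter, mem_Ioc] at hc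
      rw [hχm a c ha.1.1 (lt_of_le_of_lt (Nat.zero_le _) hc.1.1.1)]
      ring
    rw [e2, norm_mul]
    have hmaps : ∀ c ∈ Y, Nat.log 2 (cf c) ∈ range J ∪ range J := by
      intro c hc
      rw [hY, mem_filter, mem_Ioc] at hc
      by_cases hcx : c ≤ x
      · rw [union_self, mem_range, hJ, Nat.lt_succ_iff]
        have hc0 : 0 < c := lt_of_le_of_lt (Nat.zero_le _) hc.1.1
        exact Nat.log_mono_right ((cf_le hc0.ne').trans hcx)
      · exfalso
        apply hcx
        have h3 : M / a ≤ M := Nat.div_le_self _ _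
        have h4 : M + N ≤ x := by
          rw [hx]
          have h1 : N ^ C ≤ N ^ (C + 1) := Nat.pow_le_pow_right (by omega) (by omega)
          have h2 : N ≤ N ^ (C + 1) := Nat.le_self_pow (by omega) N
          have h3 : N ^ (C + 2) = N ^ (C + 1) * N := by ring
          have h4 : N ^ (C + 1) * 2 ≤ N ^ (C + 1) * N := Nat.mul_le_mul_left _ hN2
          omega
        omega
    rw [union_self] at hmaps
    rw [← sum_fiberwise_of_maps_to hmaps]
    have h3 : ∀ j ∈ range J, ‖∑ c ∈ Y.filter (fun c => Nat.log 2 (cf c) = j), (if M < a * c ∧ a * c ≤ M' then w (a * c) else 0) * χ c‖ ≤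
        (N : ℝ) ^ (1 / 2 + δ / 2) := by
      intro j hj
      rw [mem_range] at hj
      have e6 : Y.filter (fun c => Nat.log 2 (cf c) = j) = SL L (M / a) N (2 ^ j) := by
        ext c
        rw [mem_filter, hY, mem_filter, mem_Ioc, mem_SL, Nat.log_eq_iff (Or.inr ⟨by norm_num, cf_ne c⟩), pow_succ']
        constructor
        · rintro ⟨⟨h5, h6⟩, h7⟩
          exact ⟨⟨h5, h7⟩, h6⟩
        · rintro ⟨⟨h5, h7⟩, h6⟩
          exact ⟨⟨h5, h6⟩, h7⟩
      rw [e6]
      exact h a j ha.1.1 ha.1.2 (by omega)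
    have h4 : ‖∑ j ∈ range J, ∑ c ∈ Y.filter (fun c => Nat.log 2 (cf c) = j), (if M < a * c ∧ a * c ≤ M' then w (a * c) else 0) * χ c‖ ≤
        J * (N : ℝ) ^ (1 / 2 + δ / 2) := by
      refine (norm_sum_le _ _).trans ((sum_le_sum h3).trans ?_)
      rw [sum_const, card_range, nsmul_eq_mul]
    calc _ ≤ 1 * (J * (N : ℝ) ^ (1 / 2 + δ / 2)) := mul_le_mul (hχ1 a) h4 (norm_nonneg _) zero_le_one
      _ = _ := one_mul _
  refine (norm_sum_le _ _).trans ((sum_le_sum h2).trans ?_)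
  rw [sum_const, nsmul_eq_mul]
  have h5 : ((sm L x).card : ℝ) ≤ D * (N : ℝ) ^ (δ / 4) := by
    refine (hD x hx1).trans ?_
    apply mul_le_mul_of_nonneg_left _ hD0.le
    rw [hx]
    push_cast
    rw [← Real.rpow_natCast, ← Real.rpow_mul hN0.le]
    apply le_of_eq
    congr 1
    push_cast
    field_simp
  have h6 : (J : ℝ) ≤ 2 * (C + 2) * (Real.log N + 1) := by
    have h7 : (Nat.log 2 x : ℝ) * Real.log 2 ≤ Real.log x := by
      rw [← Real.log_pow]
      apply Real.log_le_log (by positivity)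
      exact_mod_cast Nat.pow_log_le_self 2 (by omega : x ≠ 0)
    have h8 : Real.log x = (C + 2) * Real.log N := by
      rw [hx]
      push_cast
      rw [Real.log_pow]
      push_cast
      ring
    have h9 := Real.log_two_gt_d9
    have h10 : (0 : ℝ) ≤ Nat.log 2 x := Nat.cast_nonneg _
    have h11 : 0 ≤ Real.log N := Real.log_nonneg hN1
    rw [hJ]
    push_cast
    have h12 : (Nat.log 2 x : ℝ) ≤ 2 * ((C + 2) * Real.log N) := by nlinarith
    have h13 : (0 : ℝ) ≤ C := Nat.cast_nonneg _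
    nlinarith
  have h7 := hN₁ N (by omega)
  have h8 : D * (J : ℝ) ≤ (N : ℝ) ^ (δ / 4) := by
    calc D * (J : ℝ) ≤ D * (2 * (C + 2) * (Real.log N + 1)) := mul_le_mul_of_nonneg_left h6 hD0.le
      _ = 2 * D * (C + 2) * (Real.log N + 1) := by ring
      _ ≤ _ := h7
  calc ((sm L x).card : ℝ) * (J * (N : ℝ) ^ (1 / 2 + δ / 2)) ≤ (D * (N : ℝ) ^ (δ / 4)) * (J * (N : ℝ) ^ (1 / 2 + δ / 2)) :=
        mul_le_mul_of_nonneg_right h5 (by positivity)
    _ = (D * J) * ((N : ℝ) ^ (δ / 4) * (N : ℝ) ^ (1 / 2 + δ / 2)) := by ring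
    _ ≤ (N : ℝ) ^ (δ / 4) * ((N : ℝ) ^ (δ / 4) * (N : ℝ) ^ (1 / 2 + δ / 2)) := mul_le_mul_of_nonneg_right h8 (by positivity)
    _ = (N : ℝ) ^ (1 / 2 + δ) := by
        rw [← Real.rpow_add hN0, ← Real.rpow_add hN0]
        congr 1
        ring

end Pool.Agent.K7.H57.Cub
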