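import Pool.Agent.K7.H57.Cub.Mean
import Pool.Agent.K7.H57.Cub.Red

set_option autoImplicit false

/-! Cubic characters in short intervals for almost all members of affine families: the moments and the exceptions. -/

namespace Pool.Agent.K7.H57.Cub
open Finset
open Pool.Agent.Y692.QS
open Pool.Agent.X22.CC
open Pool.Agent.TH894.NE (box mem_box card_box)

lemma SR_card (M N R : ℕ) : (SR M N R).card ≤ N := by
  unfold SR
  refine (card_filter_le _ _).trans ?_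
  rw [Nat.card_Ioc, Nat.add_sub_cancel_left]

lemma two_le_pow (N C : ℕ) (hN : 2 ≤ N) : N ^ C + N ≤ N ^ (C + 2) := by
  have h1 : N ^ C ≤ N ^ (C + 1) := Nat.pow_le_pow_right (by omega) (by omega)
  have h2 : N ≤ N ^ (C + 1) := Nat.le_self_pow (by omega) N
  have h3 : N ^ (C + 2) = N ^ (C + 1) * N := by ring
  have h4 : N ^ (C + 1) * 2 ≤ N ^ (C + 1) * N := Nat.mul_le_mul_left _ hN
  omega

lemma q_le {M N R C k : ℕ} (hN : 2 ≤ N) (hM : M ≤ N ^ C) (g : Fin (k + k) → ℕ) (hg : ∀ j, g j ∈ SR M N R) :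
    ∏ j, g j ^ sg k j ≤ N ^ (4 * k * (C + 2)) := by
  have h1 : ∀ j, g j ^ sg k j ≤ (N ^ (C + 2)) ^ 2 := by
    intro j
    have h2 := mem_SR.1 (hg j)
    have h3 := two_le_pow N C hN
    have h4 : g j ≤ N ^ (C + 2) := by omega
    have h5 : 1 ≤ N ^ (C + 2) := Nat.one_le_pow _ _ (by omega)
    calc g j ^ sg k j ≤ (N ^ (C + 2)) ^ sg k j := Nat.pow_le_pow_left h4 _
      _ ≤ (N ^ (C + 2)) ^ 2 := Nat.pow_le_pow_right h5 (by rcases sg_cases k j with h | h <;> omega)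
  calc ∏ j, g j ^ sg k j ≤ ∏ _j : Fin (k + k), (N ^ (C + 2)) ^ 2 := prod_le_prod' fun j _ => h1 j
    _ = N ^ (4 * k * (C + 2)) := by
        rw [prod_const, card_univ, Fintype.card_fin, ← pow_mul, ← pow_mul]
        congr 1
        ring

/-- **One family of weights.** -/
theorem one_level (d k : ℕ) (hk : 1 ≤ k) (ε : ℝ) (hε : 0 < ε) (A C : ℕ) : ∃ K : ℝ, 0 < K ∧ ∃ E : ℕ,
    ∀ N M R B L : ℕ, 2 ≤ N → M ≤ N ^ C → 1 ≤ R → B ≠ 0 → B ≤ N ^ A → N ^ E ≤ L →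
    ∀ a : (Fin d → ℕ) → Ei, Aff d B a → ∀ S ⊆ SR M N R, (∀ n ∈ S, ¬ 3 ∣ n) → ∀ v : ℕ → ℂ, (∀ n, ‖v n‖ ≤ 1) →
    ∑ m ∈ box d L, ‖∑ n ∈ S, v n * FF n (a m)‖ ^ (2 * k) ≤ (L : ℝ) ^ d * (K * (N : ℝ) ^ ((k : ℝ) + ε)) := by
  classical
  obtain ⟨K₀, hK₀, h0⟩ := core (k + k) (by omega) ε hε A C
  refine ⟨K₀ + d, by positivity, 2 * k + 4 * k * (C + 2), fun N M R B L hN hM hR hB hBA hL a ha S hS h3 v hv => ?_⟩
  have hN0 : (0 : ℝ) < N := by exact_mod_cast (by omega : 0 < N)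
  have hN1 : (1 : ℝ) ≤ N := by exact_mod_cast (by omega : 1 ≤ N)
  have hL1 : 1 ≤ L := (Nat.one_le_pow _ _ (by omega)).trans hL
  have hL0 : (0 : ℝ) < L := by exact_mod_cast hL1
  have hSn : ∀ n ∈ S, n ≠ 0 ∧ ¬ 3 ∣ n := by
    intro n hn
    have := mem_SR.1 (hS hn)
    exact ⟨by omega, h3 n hn⟩
  refine (moment a S hSn v hv k (box d L)).trans ?_
  have h1 : ∀ g ∈ Fintype.piFinset (fun _ : Fin (k + k) => S), ‖∑ m ∈ box d L, FF (∏ j, g j ^ sg k j) (a m)‖ ≤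
      (L : ℝ) ^ d * (1 / Zr (∏ j, g j ^ sg k j) B + d * (N : ℝ) ^ (4 * k * (C + 2)) / L) := by
    intro g hg
    rw [Fintype.mem_piFinset] at hg
    have hq0 : ∏ j, g j ^ sg k j ≠ 0 := prod_ne_zero_iff.2 fun j _ => pow_ne_zero _ (hSn _ (hg j)).1
    have hq3 : ¬ 3 ∣ ∏ j, g j ^ sg k j := by
      intro h
      obtain ⟨j, _, hj⟩ := (Nat.Prime.prime Nat.prime_three).exists_mem_finset_dvd h
      exact three_pow (hSn _ (hg j)).2 _ hj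
    refine (box_mean ha _ L hq0 hq3 (by omega)).trans ?_
    apply mul_le_mul_of_nonneg_left _ (by positivity)
    have h2 : ((∏ j, g j ^ sg k j : ℕ) : ℝ) ≤ (N : ℝ) ^ (4 * k * (C + 2)) := by
      exact_mod_cast q_le hN hM g (fun j => hS (hg j))
    gcongr
  refine (sum_le_sum h1).trans ?_
  rw [← mul_sum, sum_add_distrib]
  apply mul_le_mul_of_nonneg_left _ (by positivity)
  have h2 : ∑ g ∈ Fintype.piFinset (fun _ : Fin (k + k) => S), 1 / (Zr (∏ j, g j ^ sg k j) B : ℝ) ≤ K₀ * (N : ℝ) ^ ((k : ℝ) + ε) := by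
    have h3 := h0 N M R B hN hM hR hB hBA (sg k) (sg_cases k)
    have e : ((k + k : ℕ) : ℝ) / 2 + ε = k + ε := by push_cast; ring
    rw [e] at h3
    refine le_trans ?_ h3
    apply sum_le_sum_of_subset_of_nonneg
    · intro g hg
      rw [Fintype.mem_piFinset] at hg ⊢
      exact fun j => hS (hg j)
    · intro g _ _
      positivity
  have h4 : ∑ _g ∈ Fintype.piFinset (fun _ : Fin (k + k) => S), (d : ℝ) * (N : ℝ) ^ (4 * k * (C + 2)) / L ≤ d * (N : ℝ) ^ ((k : ℝ) + ε) := by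
    rw [sum_const, nsmul_eq_mul, Fintype.card_piFinset_const]
    have h5 : ((S.card ^ (k + k) : ℕ) : ℝ) ≤ (N : ℝ) ^ (2 * k) := by
      have h6 : S.card ^ (k + k) ≤ N ^ (2 * k) := by
        rw [two_mul]
        exact Nat.pow_le_pow_left ((card_le_card hS).trans (SR_card M N R)) _
      exact_mod_cast h6
    have h6 : (N : ℝ) ^ (2 * k) * (N : ℝ) ^ (4 * k * (C + 2)) ≤ L := by
      rw [← pow_add]
      exact_mod_cast hL
    have h7 : (1 : ℝ) ≤ (N : ℝ) ^ ((k : ℝ) + ε) := Real.one_le_rpow hN1 (by positivity)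
    calc ((S.card ^ (k + k) : ℕ) : ℝ) * ((d : ℝ) * (N : ℝ) ^ (4 * k * (C + 2)) / L) ≤ (N : ℝ) ^ (2 * k) * ((d : ℝ) * (N : ℝ) ^ (4 * k * (C + 2)) / L) :=
          mul_le_mul_of_nonneg_right h5 (by positivity)
      _ = d * (((N : ℝ) ^ (2 * k) * (N : ℝ) ^ (4 * k * (C + 2))) / L) := by ring
      _ ≤ d * 1 := by
          apply mul_le_mul_of_nonneg_left _ (Nat.cast_nonneg _)
          rw [div_le_one hL0]
          exact h6
      _ ≤ _ := mul_le_mul_of_nonneg_left h7 (Nat.cast_nonneg _)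
  rw [add_mul]
  exact add_le_add h2 h4

lemma sum_tail (A y X : ℕ) (hy : 2 ≤ y) : ∑ x ∈ Icc y X, (x : ℝ) ^ (-((A + 4 : ℕ) : ℝ)) ≤ 1 / (y : ℝ) ^ A := by
  have hy2 : (2 : ℝ) ≤ y := by exact_mod_cast hy
  have hy0 : (0 : ℝ) < y := by linarith
  have h1 : ∀ x ∈ Icc y X, (x : ℝ) ^ (-((A + 4 : ℕ) : ℝ)) ≤ 1 / (y : ℝ) ^ (A + 2) * (1 / (x : ℝ) ^ 2) := by
    intro x hx
    rw [mem_Icc] at hx
    have hx0 : (0 : ℝ) < x := by exact_mod_cast (by omega : 0 < x)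
    have hyx : (y : ℝ) ≤ x := by exact_mod_cast hx.1
    rw [Real.rpow_neg hx0.le, Real.rpow_natCast, show A + 4 = (A + 2) + 2 by ring, pow_add, mul_inv, ← one_div, ← one_div]
    apply mul_le_mul_of_nonneg_right _ (by positivity)
    apply one_div_le_one_div_of_le (by positivity)
    gcongr
  refine (sum_le_sum h1).trans ?_
  rw [← mul_sum]
  have h2 : ∑ x ∈ Icc y X, 1 / (x : ℝ) ^ 2 ≤ 1 := by
    rcases Nat.lt_or_ge X y with hXy | hXy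
    · rw [Icc_eq_empty (by omega), sum_empty]
      exact zero_le_one
    · have h3 : Icc y X = Ioc (y - 1) X := by
        ext t
        rw [mem_Icc, mem_Ioc]
        omega
      have h4 := sum_Ioc_inv_sq_le_sub (α := ℝ) (k := y - 1) (n := X) (by omega) (by omega)
      rw [h3]
      have h5 : ∑ x ∈ Ioc (y - 1) X, 1 / (x : ℝ) ^ 2 = ∑ i ∈ Ioc (y - 1) X, ((i : ℝ) ^ 2)⁻¹ :=
        sum_congr rfl fun x _ => by rw [one_div]
      rw [h5]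
      refine h4.trans ?_
      have h6 : (((y - 1 : ℕ) : ℝ))⁻¹ ≤ 1 := by
        apply inv_le_one_of_one_le₀
        exact_mod_cast (by omega : 1 ≤ y - 1)
      have h7 : 0 ≤ ((X : ℝ))⁻¹ := by positivity
      linarith
  have h8 : 1 / (y : ℝ) ^ (A + 2) ≤ 1 / (y : ℝ) ^ A := by
    apply one_div_le_one_div_of_le (by positivity)
    apply pow_le_pow_right₀ (by linarith) (by omega)
  calc 1 / (y : ℝ) ^ (A + 2) * ∑ x ∈ Icc y X, 1 / (x : ℝ) ^ 2 ≤ 1 / (y : ℝ) ^ (A + 2) * 1 :=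
        mul_le_mul_of_nonneg_left h2 (by positivity)
    _ ≤ 1 / (y : ℝ) ^ A := by rw [mul_one]; exact h8

/-- the exceptions for one family of weights -/
lemma exc_one (d : ℕ) (δ : ℝ) (hδ : 0 < δ) (A C P : ℕ) : ∃ E : ℕ, ∃ N₀ : ℕ,
    ∀ N M R B L : ℕ, N₀ ≤ N → M ≤ N ^ C → 1 ≤ R → B ≠ 0 → B ≤ N ^ A → N ^ E ≤ L →
    ∀ a : (Fin d → ℕ) → Ei, Aff d B a → ∀ S ⊆ SR M N R, (∀ n ∈ S, ¬ 3 ∣ n) → ∀ v : ℕ → ℂ, (∀ n, ‖v n‖ ≤ 1) →
    ∀ Ex ⊆ box d L, (∀ m ∈ Ex, (N : ℝ) ^ (1 / 2 + δ / 2) < ‖∑ n ∈ S, v n * FF n (a m)‖) → (Ex.card : ℝ) ≤ (N : ℝ) ^ (-(P : ℝ)) * (L : ℝ) ^ d := by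
  classical
  obtain ⟨k, hk⟩ : ∃ k, k = ⌈((P : ℝ) + 2) / δ⌉₊ + 1 := ⟨_, rfl⟩
  have hk1 : 1 ≤ k := by omega
  have hkδ : (P : ℝ) + 2 ≤ k * δ := by
    have h1 : ((P : ℝ) + 2) / δ ≤ k := by
      rw [hk]
      push_cast
      have := Nat.le_ceil (((P : ℝ) + 2) / δ)
      linarith
    rwa [div_le_iff₀ hδ] at h1
  obtain ⟨K, hK, E, h⟩ := one_level d k hk1 1 one_pos A C
  obtain ⟨N₁, hN₁⟩ := exists_nat_ge K
  refine ⟨E, N₁ + 2, fun N M R B L hN hM hR hB hBA hL a ha S hS h3 v hv Ex hEx hExb => ?_⟩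
  have hN0 : (0 : ℝ) < N := by exact_mod_cast (by omega : 0 < N)
  have hN1 : (1 : ℝ) ≤ N := by exact_mod_cast (by omega : 1 ≤ N)
  have h1 := h N M R B L (by omega) hM hR hB hBA hL a ha S hS h3 v hv
  have h2 : (Ex.card : ℝ) * ((N : ℝ) ^ (1 / 2 + δ / 2)) ^ (2 * k) ≤ ∑ m ∈ box d L, ‖∑ n ∈ S, v n * FF n (a m)‖ ^ (2 * k) := by
    calc (Ex.card : ℝ) * ((N : ℝ) ^ (1 / 2 + δ / 2)) ^ (2 * k) = ∑ _m ∈ Ex, ((N : ℝ) ^ (1 / 2 + δ / 2)) ^ (2 * k) := by rw [sum_const, nsmul_eq_mul]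
      _ ≤ ∑ m ∈ Ex, ‖∑ n ∈ S, v n * FF n (a m)‖ ^ (2 * k) :=
          sum_le_sum fun m hm => pow_le_pow_left₀ (by positivity) (hExb m hm).le _
      _ ≤ _ := sum_le_sum_of_subset_of_nonneg hEx fun m _ _ => by positivity
  have hKN : K ≤ (N : ℝ) ^ (1 : ℝ) := by
    rw [Real.rpow_one]
    refine hN₁.trans ?_
    exact_mod_cast (by omega : N₁ ≤ N)
  have h4 : K * (N : ℝ) ^ ((k : ℝ) + 1) ≤ (N : ℝ) ^ (-(P : ℝ)) * ((N : ℝ) ^ (1 / 2 + δ / 2)) ^ (2 * k) := by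
    calc K * (N : ℝ) ^ ((k : ℝ) + 1) ≤ (N : ℝ) ^ (1 : ℝ) * (N : ℝ) ^ ((k : ℝ) + 1) := mul_le_mul_of_nonneg_right hKN (by positivity)
      _ = (N : ℝ) ^ (1 + ((k : ℝ) + 1)) := by rw [← Real.rpow_add hN0]
      _ ≤ (N : ℝ) ^ (-(P : ℝ) + (1 / 2 + δ / 2) * (2 * k : ℕ)) := by
          apply Real.rpow_le_rpow_of_exponent_le hN1
          push_cast
          nlinarith
      _ = _ := by
          rw [← Real.rpow_natCast ((N : ℝ) ^ (1 / 2 + δ / 2)), ← Real.rpow_mul hN0.le, Real.rpow_add hN0]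
  have h6 : (Ex.card : ℝ) * ((N : ℝ) ^ (1 / 2 + δ / 2)) ^ (2 * k) ≤ ((N : ℝ) ^ (-(P : ℝ)) * (L : ℝ) ^ d) * ((N : ℝ) ^ (1 / 2 + δ / 2)) ^ (2 * k) := by
    refine (h2.trans h1).trans ?_
    calc (L : ℝ) ^ d * (K * (N : ℝ) ^ ((k : ℝ) + 1)) ≤ (L : ℝ) ^ d * ((N : ℝ) ^ (-(P : ℝ)) * ((N : ℝ) ^ (1 / 2 + δ / 2)) ^ (2 * k)) :=
          mul_le_mul_of_nonneg_left h4 (by positivity)
      _ = _ := by ring
  exact le_of_mul_le_mul_right h6 (by positivity)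

/-- the weights -/
noncomputable def WW {κ : Type} (w : κ → ℕ → ℂ) (q : κ × (ZMod 3 × ZMod 3) × ((ℕ × ℕ) × (ℕ × ℕ))) (c : ℕ) : ℂ :=
  if q.2.2.2.1 < q.2.2.1.1 * c ∧ q.2.2.1.1 * c ≤ q.2.2.2.2 then w q.1 (q.2.2.1.1 * c) * FF c (star (epz q.2.1.1 q.2.1.2)) else 0

lemma WW_norm {κ : Type} (w : κ → ℕ → ℂ) (hw : ∀ i n, ‖w i n‖ ≤ 1) (q : κ × (ZMod 3 × ZMod 3) × ((ℕ × ℕ) × (ℕ × ℕ))) (c : ℕ) : ‖WW w q c‖ ≤ 1 := by
  unfold WW
  split_ifs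
  · rw [norm_mul]
    calc ‖w q.1 (q.2.2.1.1 * c)‖ * ‖FF c (star (epz q.2.1.1 q.2.1.2))‖ ≤ 1 * 1 := mul_le_mul (hw _ _) (FF_norm _ _) (norm_nonneg _) zero_le_one
      _ = 1 := one_mul 1
  · rw [norm_zero]
    exact zero_le_one

/-- the parameters -/
def PP {κ : Type} (Λ : ℕ → Finset κ) (C N : ℕ) : Finset (κ × (ZMod 3 × ZMod 3) × ((ℕ × ℕ) × (ℕ × ℕ))) :=
  (Λ N) ×ˢ (univ : Finset (ZMod 3 × ZMod 3)) ×ˢ ((range (N ^ (C + 2) + 1) ×ˢ range (N ^ (C + 2) + 1)) ×ˢ (range (N ^ (C + 2) + 1) ×ˢ range (N ^ (C + 2) + 1)))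

lemma PP_card {κ : Type} (Λ : ℕ → Finset κ) (A C N : ℕ) (hN : 2 ≤ N) (hΛ : (Λ N).card ≤ N ^ A) : (PP Λ C N).card ≤ N ^ (A + 4 + 4 * (C + 3)) := by
  unfold PP
  rw [card_product, card_product, card_product, card_product, card_range]
  have e1 : (univ : Finset (ZMod 3 × ZMod 3)).card = 9 := by decide
  rw [e1]
  have h1 : N ^ (C + 2) + 1 ≤ N ^ (C + 3) := by
    have h2 : N ^ (C + 3) = N ^ (C + 2) * N := by ring
    have h3 : 1 ≤ N ^ (C + 2) := Nat.one_le_pow _ _ (by omega)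
    have h4 : N ^ (C + 2) * 2 ≤ N ^ (C + 2) * N := Nat.mul_le_mul_left _ hN
    omega
  have h2 : 9 ≤ N ^ 4 := by
    calc 9 ≤ 2 ^ 4 := by norm_num
      _ ≤ N ^ 4 := Nat.pow_le_pow_left hN 4
  calc (Λ N).card * (9 * ((N ^ (C + 2) + 1) * (N ^ (C + 2) + 1) * ((N ^ (C + 2) + 1) * (N ^ (C + 2) + 1)))) ≤
        N ^ A * (N ^ 4 * (N ^ (C + 3) * N ^ (C + 3) * (N ^ (C + 3) * N ^ (C + 3)))) := by gcongr
    _ = _ := by
        rw [← pow_add, ← pow_add, ← pow_add, ← pow_add]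
        congr 1
        ring

/-- the sums are small at `m`, `N` -/
def Good {κ : Type} (w : κ → ℕ → ℂ) (Λ : ℕ → Finset κ) (C : ℕ) (δ : ℝ) (N : ℕ) (x : Ei) : Prop :=
  ∀ i ∈ Λ N, ∀ χ : ℕ → ℂ, (∀ n, ‖χ n‖ ≤ 1) → (∀ n n' : ℕ, 1 ≤ n → 1 ≤ n' → χ (n * n') = χ n * χ n') →
    (∃ u v : ZMod 3, ∀ n : ℕ, n ≠ 0 → ¬ 3 ∣ n → χ n = FF n (star (epz u v)) * FF n x) →
    ∀ M M' : ℕ, M ≤ N ^ C → M' ≤ M + N → ‖∑ n ∈ Ioc M M', w i n * χ n‖ ≤ (N : ℝ) ^ (1 / 2 + δ)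

/-- the reduction for the system `L` -/
lemma good_of (L : ℕ) (hL : L ≠ 0) (h3L : 3 ∣ L) (C : ℕ) (δ : ℝ) (hδ : 0 < δ) : ∃ N₀ : ℕ, ∀ N : ℕ, N₀ ≤ N →
    ∀ (κ : Type) (w : κ → ℕ → ℂ) (Λ : ℕ → Finset κ) (x : Ei),
    (∀ q ∈ PP Λ C N, ‖∑ c ∈ SL L (q.2.2.2.1 / q.2.2.1.1) N (2 ^ q.2.2.1.2), WW w q c * FF c x‖ ≤ (N : ℝ) ^ (1 / 2 + δ / 2)) →
    Good w Λ C δ N x := by
  obtain ⟨N₀, h⟩ := reduce L hL C δ hδ
  refine ⟨N₀ + 2, fun N hN κ w Λ x hq i hi χ hχ1 hχm hχ M M' hM hM' => ?_⟩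
  obtain ⟨u, v, huv⟩ := hχ
  refine h N (by omega) M M' hM hM' (w i) χ hχ1 hχm ?_
  intro a j ha hax hj
  have h1 := two_le_pow N C (by omega)
  have h2 := hq (i, (u, v), ((a, j), (M, M'))) (by
    unfold PP
    simp only [mem_product, mem_univ, mem_range, true_and]
    exact ⟨hi, ⟨by omega, by omega⟩, by omega, by omega⟩)
  refine le_trans (le_of_eq ?_) h2
  congr 1
  apply sum_congr rfl
  intro c hc
  rw [mem_SL] at hc
  have hc0 : c ≠ 0 := (lt_of_le_of_lt (Nat.zero_le _) hc.1.1.1).ne'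
  have hc3 : ¬ 3 ∣ c := fun h => Nat.not_coprime_of_dvd_of_dvd (by norm_num : 1 < 3) h h3L hc.2
  unfold WW
  simp only
  by_cases h5 : M < a * c ∧ a * c ≤ M'
  · rw [if_pos h5, if_pos h5, huv c hc0 hc3]
    ring
  · rw [if_neg h5, if_neg h5, zero_mul, zero_mul]

open Classical in
/-- **The law for affine families.** -/
theorem law (d A C : ℕ) (δ : ℝ) (hδ : 0 < δ) : ∃ c : ℝ, 0 < c ∧ ∃ y₀ : ℕ, ∀ (y L B : ℕ) (a : (Fin d → ℕ) → Ei), y₀ ≤ y → Aff d B a →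
    B ≠ 0 → B ≤ y ^ A → ∀ (κ : Type) (w : κ → ℕ → ℂ) (Λ : ℕ → Finset κ), (∀ i n, ‖w i n‖ ≤ 1) → (∀ N, (Λ N).card ≤ N ^ A) →
    (((box d L).filter (fun m => ¬ ∀ N : ℕ, y ≤ N → (N : ℝ) ≤ (L : ℝ) ^ c → Good w Λ C δ N (a m))).card : ℝ) ≤ (L : ℝ) ^ d / (y : ℝ) ^ A := by
  obtain ⟨P, hP⟩ : ∃ P, P = (A + 4 + 4 * (C + 3)) + (A + 4) := ⟨_, rfl⟩
  obtain ⟨E, N₁, h⟩ := exc_one d δ hδ A (C + 2) P
  obtain ⟨N₂, hred⟩ := good_of 3 (by norm_num) (dvd_refl 3) C δ hδ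
  obtain ⟨c, hc⟩ : ∃ c : ℝ, c = 1 / (E + 1) := ⟨_, rfl⟩
  have hc0 : 0 < c := by rw [hc]; positivity
  have hc1 : c ≤ 1 := by
    rw [hc, div_le_one (by positivity)]
    have : (0 : ℝ) ≤ E := Nat.cast_nonneg _
    linarith
  refine ⟨c, hc0, N₁ + N₂ + 2, fun y L B a hy ha hB hBy κ w Λ hw hΛ => ?_⟩
  obtain ⟨T, hT⟩ : ∃ T : ℕ → (κ × (ZMod 3 × ZMod 3) × ((ℕ × ℕ) × (ℕ × ℕ))) → (Fin d → ℕ) → ℂ,
      T = fun N q m => ∑ c ∈ SL 3 (q.2.2.2.1 / q.2.2.1.1) N (2 ^ q.2.2.1.2), WW w q c * FF c (a m) := ⟨_, rfl⟩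
  obtain ⟨Ex, hEx⟩ : ∃ Ex : ℕ → (κ × (ZMod 3 × ZMod 3) × ((ℕ × ℕ) × (ℕ × ℕ))) → Finset (Fin d → ℕ),
      Ex = fun (N : ℕ) q => (box d L).filter (fun m => (N : ℝ) ≤ (L : ℝ) ^ c ∧ (N : ℝ) ^ (1 / 2 + δ / 2) < ‖T N q m‖) := ⟨_, rfl⟩
  have hNL : ∀ N : ℕ, 1 ≤ N → (N : ℝ) ≤ (L : ℝ) ^ c → 1 ≤ L ∧ N ^ (E + 1) ≤ L := by
    intro N hN1 hN
    have hL1 : 1 ≤ L := by
      apply Nat.one_le_iff_ne_zero.2
      rintro rfl
      rw [Nat.cast_zero, Real.zero_rpow hc0.ne'] at hN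
      have : (1 : ℝ) ≤ N := by exact_mod_cast hN1
      linarith
    refine ⟨hL1, ?_⟩
    have hL0 : (0 : ℝ) ≤ L := Nat.cast_nonneg _
    have h1 : (N : ℝ) ^ (E + 1) ≤ L := by
      calc (N : ℝ) ^ (E + 1) ≤ ((L : ℝ) ^ c) ^ (E + 1) := pow_le_pow_left₀ (Nat.cast_nonneg _) hN _
        _ = L := by
            rw [← Real.rpow_natCast, ← Real.rpow_mul hL0, hc]
            push_cast
            rw [one_div, inv_mul_cancel₀ (by positivity), Real.rpow_one]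
    exact_mod_cast h1
  have hexc : ∀ N : ℕ, y ≤ N → ∀ q : κ × (ZMod 3 × ZMod 3) × ((ℕ × ℕ) × (ℕ × ℕ)), q ∈ PP Λ C N →
      ((Ex N q).card : ℝ) ≤ (N : ℝ) ^ (-(P : ℝ)) * (L : ℝ) ^ d := by
    intro N hyN q hq
    have hN0 : (0 : ℝ) < N := by exact_mod_cast (by omega : 0 < N)
    by_cases hNc : (N : ℝ) ≤ (L : ℝ) ^ c
    · obtain ⟨hL1, hL2⟩ := hNL N (by omega) hNc
      unfold PP at hq
      simp only [mem_product, mem_univ, mem_range, true_and] at hq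
      refine h N (q.2.2.2.1 / q.2.2.1.1) (2 ^ q.2.2.1.2) B L (by omega) ?_ (Nat.one_le_pow _ _ (by norm_num)) hB
        (hBy.trans (Nat.pow_le_pow_left hyN A)) ((Nat.pow_le_pow_right (by omega) (by omega)).trans hL2) a ha
        (SL 3 (q.2.2.2.1 / q.2.2.1.1) N (2 ^ q.2.2.1.2)) (filter_subset _ _) ?_ (WW w q) (WW_norm w hw q) (Ex N q) ?_ ?_
      · exact (Nat.div_le_self _ _).trans (by omega)
      · intro n hn
        rw [mem_SL] at hn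
        exact fun h => Nat.not_coprime_of_dvd_of_dvd (by norm_num : 1 < 3) h (dvd_refl 3) hn.2
      · rw [hEx]
        exact filter_subset _ _
      · intro m hm
        rw [hEx, mem_filter, hT] at hm
        exact hm.2.2
    · have : Ex N q = ∅ := by
        rw [hEx]
        apply filter_false_of_mem
        intro m _ hm
        exact hNc hm.1
      rw [this, card_empty, Nat.cast_zero]
      positivity
  have hsub : (box d L).filter (fun m => ¬ ∀ N : ℕ, y ≤ N → (N : ℝ) ≤ (L : ℝ) ^ c → Good w Λ C δ N (a m)) ⊆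
      (Icc y L).biUnion (fun N => (PP Λ C N).biUnion (fun q => Ex N q)) := by
    intro m hm
    rw [mem_filter] at hm
    by_contra hcon
    apply hm.2
    intro N hyN hNc
    obtain ⟨hL1, hL2⟩ := hNL N (by omega) hNc
    apply hred N (by omega)
    intro q hq
    by_contra hcon2
    push Not at hcon2
    apply hcon
    rw [mem_biUnion]
    refine ⟨N, ?_, ?_⟩
    · rw [mem_Icc]
      exact ⟨hyN, (Nat.le_self_pow (by omega) N).trans hL2⟩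
    rw [mem_biUnion]
    refine ⟨q, hq, ?_⟩
    rw [hEx, mem_filter, hT]
    exact ⟨hm.1, hNc, hcon2⟩
  have hone : ∀ N ∈ Icc y L, (((PP Λ C N).biUnion (fun q => Ex N q)).card : ℝ) ≤ (N : ℝ) ^ (-((A + 4 : ℕ) : ℝ)) * (L : ℝ) ^ d := by
    intro N hN
    rw [mem_Icc] at hN
    have hN0 : (0 : ℝ) < N := by exact_mod_cast (by omega : 0 < N)
    have h1 : (((PP Λ C N).biUnion (fun q => Ex N q)).card : ℝ) ≤ ∑ q ∈ PP Λ C N, ((Ex N q).card : ℝ) := by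
      exact_mod_cast card_biUnion_le
    refine h1.trans ((sum_le_sum (fun q hq => hexc N hN.1 q hq)).trans ?_)
    rw [sum_const, nsmul_eq_mul]
    have h2 : ((PP Λ C N).card : ℝ) ≤ (N : ℝ) ^ ((A + 4 + 4 * (C + 3) : ℕ) : ℝ) := by
      rw [Real.rpow_natCast]
      exact_mod_cast PP_card Λ A C N (by omega) (hΛ N)
    calc ((PP Λ C N).card : ℝ) * ((N : ℝ) ^ (-(P : ℝ)) * (L : ℝ) ^ d) ≤
          (N : ℝ) ^ ((A + 4 + 4 * (C + 3) : ℕ) : ℝ) * ((N : ℝ) ^ (-(P : ℝ)) * (L : ℝ) ^ d) :=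
          mul_le_mul_of_nonneg_right h2 (by positivity)
      _ = (N : ℝ) ^ (-((A + 4 : ℕ) : ℝ)) * (L : ℝ) ^ d := by
          rw [← mul_assoc, ← Real.rpow_add hN0, hP]
          congr 2
          push_cast
          ring
  have hcard : (((box d L).filter (fun m => ¬ ∀ N : ℕ, y ≤ N → (N : ℝ) ≤ (L : ℝ) ^ c → Good w Λ C δ N (a m))).card : ℝ) ≤
      ∑ N ∈ Icc y L, (N : ℝ) ^ (-((A + 4 : ℕ) : ℝ)) * (L : ℝ) ^ d := by
    have h1 := (card_le_card hsub).trans card_biUnion_le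
    have h2 : (((box d L).filter (fun m => ¬ ∀ N : ℕ, y ≤ N → (N : ℝ) ≤ (L : ℝ) ^ c → Good w Λ C δ N (a m))).card : ℝ) ≤
        ∑ N ∈ Icc y L, (((PP Λ C N).biUnion (fun q => Ex N q)).card : ℝ) := by exact_mod_cast h1
    exact h2.trans (sum_le_sum hone)
  refine hcard.trans ?_
  rw [← sum_mul]
  calc (∑ N ∈ Icc y L, (N : ℝ) ^ (-((A + 4 : ℕ) : ℝ))) * (L : ℝ) ^ d ≤ (1 / (y : ℝ) ^ A) * (L : ℝ) ^ d :=
        mul_le_mul_of_nonneg_right (sum_tail A y L (by omega)) (by positivity)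
    _ = _ := by ring

end Pool.Agent.K7.H57.Cub
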