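import Pool.Agent.K7.H57.Cub.Law
import Pool.Agent.X22.MT3

set_option autoImplicit false

/-! Cubic characters in short intervals for almost all members of thin subfamilies of affine families, obtained by few changes of digits. -/

namespace Pool.Agent.K7.H57.Cub
open Finset
open Pool.Agent.Y692.QS
open Pool.Agent.X22.CC
open Pool.Agent.TH894.NE (box mem_box card_box Per cfd ch')
open Pool.Agent.TH894.ND (Fr)
open Pool.Agent.TH894.SM (change)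
open Pool.Agent.X22.MT (PerC avg_engine fourier_zero)

/-- the expansion of the powers -/
lemma expand {d : ℕ} (a : (Fin d → ℕ) → Ei) (S : Finset ℕ) (hS : ∀ n ∈ S, n ≠ 0 ∧ ¬ 3 ∣ n) (v : ℕ → ℂ) (k : ℕ) :
    ∃ V : Fin (k + k) → ℕ → ℂ, ∀ m, ((‖∑ n ∈ S, v n * FF n (a m)‖ ^ (2 * k) : ℝ) : ℂ) =
      ∑ g ∈ Fintype.piFinset (fun _ : Fin (k + k) => S), (∏ j, V j (g j)) * FF (∏ j, g j ^ sg k j) (a m) := by
  classical
  refine ⟨Fin.addCases (fun _ => v) (fun _ => fun n => (starRingEnd ℂ) (v n)), ?_⟩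
  obtain ⟨V, hV⟩ : ∃ V : Fin (k + k) → ℕ → ℂ, V = Fin.addCases (fun _ => v) (fun _ => fun n => (starRingEnd ℂ) (v n)) := ⟨_, rfl⟩
  rw [← hV]
  intro m
  have e1 : ((‖∑ n ∈ S, v n * FF n (a m)‖ ^ (2 * k) : ℝ) : ℂ) = ∏ j : Fin (k + k), ∑ n ∈ S, V j n * FF n (a m) ^ sg k j := by
    rw [Fin.prod_univ_add]
    have e2 : ∀ i : Fin k, ∑ n ∈ S, V (Fin.castAdd k i) n * FF n (a m) ^ sg k (Fin.castAdd k i) = ∑ n ∈ S, v n * FF n (a m) := by
      intro i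
      apply sum_congr rfl
      intro n _
      rw [hV]
      simp only [Fin.addCases_left, sg, pow_one]
    have e3 : ∀ i : Fin k, ∑ n ∈ S, V (Fin.natAdd k i) n * FF n (a m) ^ sg k (Fin.natAdd k i) = (starRingEnd ℂ) (∑ n ∈ S, v n * FF n (a m)) := by
      intro i
      rw [map_sum]
      apply sum_congr rfl
      intro n _
      rw [hV, map_mul, ← sq_conj (FF_val n (a m))]
      simp only [Fin.addCases_right, sg]
    rw [prod_congr rfl (fun i _ => e2 i), prod_congr rfl (fun i _ => e3 i), prod_const, prod_const, card_univ, Fintype.card_fin, ← mul_pow, Complex.mul_conj']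
    push_cast
    rw [pow_mul]
  rw [e1, prod_univ_sum]
  apply sum_congr rfl
  intro g hg
  rw [Fintype.mem_piFinset] at hg
  rw [prod_mul_distrib, FF_prod univ _ (fun j _ => pow_ne_zero _ (hS _ (hg j)).1) (fun j _ => three_pow (hS _ (hg j)).2 _)]
  congr 1
  apply prod_congr rfl
  intro j _
  rw [FF_pow (hS _ (hg j)).1 (hS _ (hg j)).2]

/-- **One family of weights**, few digits. -/
theorem one_level_digits (b d k : ℕ) (hb : 2 ≤ b) (hd : 1 ≤ d) (hk : 1 ≤ k) (ε : ℝ) (hε : 0 < ε) (A C : ℕ) : ∃ c : ℝ, 0 < c ∧ ∃ K : ℝ, 0 < K ∧ ∃ N₀ : ℕ,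
    ∀ (r Kd : Fin d → ℕ) (N : ℕ), (∀ i, 2 * r i ≤ Kd i) → N₀ ≤ N → (∀ i, Real.log N ≤ c * r i) →
    ∀ Nn : Fin d → ℕ, (∀ i, Nn i < b ^ Kd i) → ∀ f : Fin d → ℕ → ℕ, (∀ i j, f i j < b ∧ f i j ≠ Nn i / b ^ j % b) →
    ∀ M R B : ℕ, M ≤ N ^ C → 1 ≤ R → B ≠ 0 → B ≤ N ^ A → ∀ a : (Fin d → ℕ) → Ei, Aff d B a →
    ∀ S ⊆ SR M N R, (∀ n ∈ S, n.Coprime (b * b).factorial) → ∀ v : ℕ → ℂ, (∀ n, ‖v n‖ ≤ 1) →
    ∑ T ∈ Fintype.piFinset (fun i => powersetCard (r i) (range (Kd i))), ‖∑ n ∈ S, v n * FF n (a (fun i => change b (Kd i) (Nn i) (f i) (T i)))‖ ^ (2 * k) ≤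
      K * (N : ℝ) ^ ((k : ℝ) + ε) * ∏ i, ((Kd i).choose (r i) : ℝ) := by
  classical
  obtain ⟨j₀, hj₀⟩ : ∃ j₀, j₀ = 2 * k * (C + 2) := ⟨_, rfl⟩
  have hj1 : 1 ≤ j₀ := by
    rw [hj₀]
    exact Nat.one_le_iff_ne_zero.2 (Nat.mul_ne_zero (Nat.mul_ne_zero (by norm_num) (by omega)) (by omega))
  obtain ⟨c, hc, x₀, havg⟩ := avg_engine b d j₀ hb hd hj1 (ε / 2) (by positivity)
  obtain ⟨K₀, hK₀, h0⟩ := core (k + k) (by omega) (ε / 2) (by positivity) A C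
  refine ⟨c, hc, 2 * K₀, by positivity, x₀ + 2, fun r Kd N hrK hN hNr Nn hNn f hf M R B hM hR hB hBA a ha S hS hSL v hv => ?_⟩
  have hN0 : (0 : ℝ) < N := by exact_mod_cast (by omega : 0 < N)
  have hN1 : (1 : ℝ) ≤ N := by exact_mod_cast (by omega : 1 ≤ N)
  have h3L : 3 ∣ (b * b).factorial := Nat.dvd_factorial (by norm_num) (by nlinarith)
  have hSn : ∀ n ∈ S, n ≠ 0 ∧ ¬ 3 ∣ n := by
    intro n hn
    have := mem_SR.1 (hS hn)
    exact ⟨by omega, fun h => Nat.not_coprime_of_dvd_of_dvd (by norm_num : 1 < 3) h h3L (hSL n hn)⟩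
  obtain ⟨q, hq⟩ : ∃ q : (Fin (k + k) → ℕ) → ℕ, q = fun g => ∏ j, g j ^ sg k j := ⟨_, rfl⟩
  obtain ⟨Q, hQ⟩ : ∃ Q, Q = ∏ g ∈ Fintype.piFinset (fun _ : Fin (k + k) => S), q g := ⟨_, rfl⟩
  have hq0 : ∀ g ∈ Fintype.piFinset (fun _ : Fin (k + k) => S), q g ≠ 0 := by
    intro g hg
    rw [Fintype.mem_piFinset] at hg
    rw [hq]
    exact prod_ne_zero_iff.2 fun j _ => pow_ne_zero _ (hSn _ (hg j)).1
  have hq3 : ∀ g ∈ Fintype.piFinset (fun _ : Fin (k + k) => S), ¬ 3 ∣ q g := by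
    intro g hg h
    rw [Fintype.mem_piFinset] at hg
    rw [hq] at h
    obtain ⟨j, _, hj⟩ := (Nat.Prime.prime Nat.prime_three).exists_mem_finset_dvd h
    exact three_pow (hSn _ (hg j)).2 _ hj
  have hqQ : ∀ g ∈ Fintype.piFinset (fun _ : Fin (k + k) => S), q g ∣ Q := by
    intro g hg
    rw [hQ]
    exact dvd_prod_of_mem q hg
  have hQ0 : Q ≠ 0 := by
    rw [hQ]
    exact prod_ne_zero_iff.2 hq0
  have hQ1 : 1 ≤ Q := Nat.pos_of_ne_zero hQ0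
  have hnQ : ∀ n ∈ S, n ∣ Q := by
    intro n hn
    have h1 : (fun _ : Fin (k + k) => n) ∈ Fintype.piFinset (fun _ : Fin (k + k) => S) := by
      rw [Fintype.mem_piFinset]
      exact fun _ => hn
    refine dvd_trans ?_ (hqQ _ h1)
    rw [hq]
    refine dvd_trans ?_ (dvd_prod_of_mem _ (mem_univ (⟨0, by omega⟩ : Fin (k + k))))
    exact dvd_pow_self n (by rcases sg_cases k ⟨0, by omega⟩ with h | h <;> omega)
  have hLQ : Nat.Coprime (b * b).factorial Q := by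
    rw [hQ]
    apply Nat.Coprime.prod_right
    intro g hg
    rw [Fintype.mem_piFinset] at hg
    rw [hq]
    apply Nat.Coprime.prod_right
    intro j _
    exact Nat.Coprime.pow_right _ (hSL _ (hg j)).symm
  have hqN : ∀ g ∈ Fintype.piFinset (fun _ : Fin (k + k) => S), q g ≤ N ^ (2 * j₀) := by
    intro g hg
    rw [Fintype.mem_piFinset] at hg
    rw [hq, hj₀]
    refine (q_le (by omega) hM g (fun j => hS (hg j))).trans (le_of_eq ?_)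
    congr 1
    ring
  obtain ⟨H, hH⟩ : ∃ H : (Fin d → ℕ) → ℝ, H = fun m => ‖∑ n ∈ S, v n * FF n (a m)‖ ^ (2 * k) := ⟨_, rfl⟩
  obtain ⟨V, hV⟩ := expand a S hSn v k
  have hPer : Per Q H := by
    intro m
    rw [hH]
    show ‖∑ n ∈ S, v n * FF n (a m)‖ ^ (2 * k) = ‖∑ n ∈ S, v n * FF n (a (fun i => m i % Q))‖ ^ (2 * k)
    congr 2
    apply sum_congr rfl
    intro n hn
    congr 1
    exact (PerC.of_dvd (hnQ n hn) (perC ha (hSn n hn).1 (hSn n hn).2)) m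
  have hcf : ∀ kk ∈ box d Q, ∀ i₀, kk i₀ ∉ Fr Q (N ^ (2 * j₀)) → cfd Q H kk = 0 := by
    intro kk hkk i₀ hi₀
    unfold cfd
    have h1 : ∑ n ∈ box d Q, (H n : ℂ) * ch' Q kk n =
        ∑ g ∈ Fintype.piFinset (fun _ : Fin (k + k) => S), (∏ j, V j (g j)) * ∑ n ∈ box d Q, FF (q g) (a n) * ch' Q kk n := by
      have h2 : ∀ n ∈ box d Q, (H n : ℂ) * ch' Q kk n =
          ∑ g ∈ Fintype.piFinset (fun _ : Fin (k + k) => S), (∏ j, V j (g j)) * (FF (q g) (a n) * ch' Q kk n) := by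
        intro n _
        rw [hH, hq]
        simp only
        rw [hV n, sum_mul]
        apply sum_congr rfl
        intro g _
        ring
      rw [sum_congr rfl h2, sum_comm]
      apply sum_congr rfl
      intro g _
      rw [mul_sum]
    rw [h1, sum_eq_zero, mul_zero]
    intro g hg
    rw [fourier_zero Q (q g) (N ^ (2 * j₀)) hQ1 (Nat.pos_of_ne_zero (hq0 g hg)) (hqN g hg) i₀ (fun n => FF (q g) (a n)) ?_ kk hkk hi₀, mul_zero]
    intro n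
    apply (perC ha (hq0 g hg) (hq3 g hg)).congr
    intro i
    by_cases hi : i = i₀
    · subst hi
      rw [Function.update_self, Nat.mod_mod_of_dvd _ (hqQ g hg), Nat.add_mod_right]
    · rw [Function.update_of_ne hi]
  have h1 := havg r Kd N hrK (by omega) hNr Nn hNn f hf Q hQ1 hLQ H hPer (fun n => by rw [hH]; positivity) hcf
  have h2 : Pool.Agent.TH894.NE.mean d Q H ≤ K₀ * (N : ℝ) ^ ((k : ℝ) + ε / 2) := by
    unfold Pool.Agent.TH894.NE.mean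
    have hQr : (0 : ℝ) < Q := by exact_mod_cast hQ1
    have h3 := moment a S hSn v hv k (box d Q)
    have h4 : ∀ g ∈ Fintype.piFinset (fun _ : Fin (k + k) => S), ‖∑ m ∈ box d Q, FF (∏ j, g j ^ sg k j) (a m)‖ ≤
        (Q : ℝ) ^ d * (1 / (Zr (∏ j, g j ^ sg k j) B : ℝ)) := by
      intro g hg
      obtain ⟨t, ht⟩ := hqQ g hg
      have ht0 : t ≠ 0 := by
        rintro rfl
        exact hQ0 (by rw [ht, mul_zero])
      have h5 := mult_mean ha (q g) t (hq0 g hg) (hq3 g hg) ht0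
      rw [← ht] at h5
      rw [hq] at h5
      rw [mul_one_div]
      exact h5
    have h5 := h3.trans (sum_le_sum h4)
    rw [← mul_sum] at h5
    have h6 : ∑ g ∈ Fintype.piFinset (fun _ : Fin (k + k) => S), 1 / (Zr (∏ j, g j ^ sg k j) B : ℝ) ≤ K₀ * (N : ℝ) ^ ((k : ℝ) + ε / 2) := by
      have h7 := h0 N M R B (by omega) hM hR hB hBA (sg k) (sg_cases k)
      have e : ((k + k : ℕ) : ℝ) / 2 + ε / 2 = k + ε / 2 := by push_cast; ring
      rw [e] at h7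
      refine le_trans ?_ h7
      apply sum_le_sum_of_subset_of_nonneg
      · intro g hg
        rw [Fintype.mem_piFinset] at hg ⊢
        exact fun j => hS (hg j)
      · intro g _ _
        positivity
    rw [hH]
    calc 1 / (Q : ℝ) ^ d * ∑ m ∈ box d Q, ‖∑ n ∈ S, v n * FF n (a m)‖ ^ (2 * k) ≤
          1 / (Q : ℝ) ^ d * ((Q : ℝ) ^ d * (K₀ * (N : ℝ) ^ ((k : ℝ) + ε / 2))) := by
          apply mul_le_mul_of_nonneg_left _ (by positivity)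
          exact h5.trans (mul_le_mul_of_nonneg_left h6 (by positivity))
      _ = _ := by
          field_simp
  have h3 : ∑ T ∈ Fintype.piFinset (fun i => powersetCard (r i) (range (Kd i))), ‖∑ n ∈ S, v n * FF n (a (fun i => change b (Kd i) (Nn i) (f i) (T i)))‖ ^ (2 * k) =
      ∑ T ∈ Fintype.piFinset (fun i => powersetCard (r i) (range (Kd i))), H (fun i => change b (Kd i) (Nn i) (f i) (T i)) := by
    rw [hH]
  rw [h3]
  refine h1.trans ?_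
  apply mul_le_mul_of_nonneg_right _ (prod_nonneg fun i _ => Nat.cast_nonneg _)
  calc 2 * (N : ℝ) ^ (ε / 2) * Pool.Agent.TH894.NE.mean d Q H ≤ 2 * (N : ℝ) ^ (ε / 2) * (K₀ * (N : ℝ) ^ ((k : ℝ) + ε / 2)) :=
        mul_le_mul_of_nonneg_left h2 (by positivity)
    _ = 2 * K₀ * ((N : ℝ) ^ (ε / 2) * (N : ℝ) ^ ((k : ℝ) + ε / 2)) := by ring
    _ = _ := by
        rw [← Real.rpow_add hN0]
        congr 2
        ring

/-- the exceptions for one family of weights, few digits -/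
lemma exc_one_digits (b d : ℕ) (hb : 2 ≤ b) (hd : 1 ≤ d) (δ : ℝ) (hδ : 0 < δ) (A C P : ℕ) : ∃ c : ℝ, 0 < c ∧ ∃ N₀ : ℕ,
    ∀ (r Kd : Fin d → ℕ) (N : ℕ), (∀ i, 2 * r i ≤ Kd i) → N₀ ≤ N → (∀ i, Real.log N ≤ c * r i) →
    ∀ Nn : Fin d → ℕ, (∀ i, Nn i < b ^ Kd i) → ∀ f : Fin d → ℕ → ℕ, (∀ i j, f i j < b ∧ f i j ≠ Nn i / b ^ j % b) →
    ∀ M R B : ℕ, M ≤ N ^ C → 1 ≤ R → B ≠ 0 → B ≤ N ^ A → ∀ a : (Fin d → ℕ) → Ei, Aff d B a →
    ∀ S ⊆ SR M N R, (∀ n ∈ S, n.Coprime (b * b).factorial) → ∀ v : ℕ → ℂ, (∀ n, ‖v n‖ ≤ 1) →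
    ∀ Ex ⊆ Fintype.piFinset (fun i => powersetCard (r i) (range (Kd i))),
    (∀ T ∈ Ex, (N : ℝ) ^ (1 / 2 + δ / 2) < ‖∑ n ∈ S, v n * FF n (a (fun i => change b (Kd i) (Nn i) (f i) (T i)))‖) →
    (Ex.card : ℝ) ≤ (N : ℝ) ^ (-(P : ℝ)) * ∏ i, ((Kd i).choose (r i) : ℝ) := by
  classical
  obtain ⟨k, hk⟩ : ∃ k, k = ⌈((P : ℝ) + 2) / δ⌉₊ + 1 := ⟨_, rfl⟩
  have hk1 : 1 ≤ k := by omega
  have hkδ : (P : ℝ) + 2 ≤ k * δ := by
    have h1 : ((P : ℝ) + 2) / δ ≤ k := by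
      rw [hk]
      push_cast
      have := Nat.le_ceil (((P : ℝ) + 2) / δ)
      linarith
    rwa [div_le_iff₀ hδ] at h1
  obtain ⟨c, hc, K, hK, N₂, h⟩ := one_level_digits b d k hb hd hk1 1 one_pos A C
  obtain ⟨N₁, hN₁⟩ := exists_nat_ge K
  refine ⟨c, hc, N₁ + N₂ + 2, fun r Kd N hrK hN hNr Nn hNn f hf M R B hM hR hB hBA a ha S hS hSL v hv Ex hEx hExb => ?_⟩
  have hN0 : (0 : ℝ) < N := by exact_mod_cast (by omega : 0 < N)
  have hN1 : (1 : ℝ) ≤ N := by exact_mod_cast (by omega : 1 ≤ N)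
  have h1 := h r Kd N hrK (by omega) hNr Nn hNn f hf M R B hM hR hB hBA a ha S hS hSL v hv
  obtain ⟨Pr, hPr⟩ : ∃ Pr : ℝ, Pr = ∏ i, ((Kd i).choose (r i) : ℝ) := ⟨_, rfl⟩
  have hPr0 : 0 ≤ Pr := by rw [hPr]; exact prod_nonneg fun i _ => Nat.cast_nonneg _
  rw [← hPr] at h1 ⊢
  have h2 : (Ex.card : ℝ) * ((N : ℝ) ^ (1 / 2 + δ / 2)) ^ (2 * k) ≤
      ∑ T ∈ Fintype.piFinset (fun i => powersetCard (r i) (range (Kd i))), ‖∑ n ∈ S, v n * FF n (a (fun i => change b (Kd i) (Nn i) (f i) (T i)))‖ ^ (2 * k) := by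
    calc (Ex.card : ℝ) * ((N : ℝ) ^ (1 / 2 + δ / 2)) ^ (2 * k) = ∑ _T ∈ Ex, ((N : ℝ) ^ (1 / 2 + δ / 2)) ^ (2 * k) := by rw [sum_const, nsmul_eq_mul]
      _ ≤ ∑ T ∈ Ex, ‖∑ n ∈ S, v n * FF n (a (fun i => change b (Kd i) (Nn i) (f i) (T i)))‖ ^ (2 * k) :=
          sum_le_sum fun m hm => pow_le_pow_left₀ (by positivity) (hExb m hm).le _
      _ ≤ _ := sum_le_sum_of_subset_of_nonneg hEx fun m _ _ => by positivity
  have hKN : K ≤ (N : ℝ) ^ (1 : ℝ) := by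
    rw [Real.rpow_one]
    refine hN₁.trans ?_
    exact_mod_cast (by omega : N₁ ≤ N)
  have h4 : K * (N : ℝ) ^ ((k : ℝ) + 1) ≤ (N : ℝ) ^ (-(P : ℝ)) * ((N : ℝ) ^ (1 / 2 + δ / 2)) ^ (2 * k) := by
    calc K * (N : ℝ) ^ ((k : ℝ) + 1) ≤ (N : ℝ) ^ (1 : ℝ) * (N : ℝ) ^ ((k : ℝ) + 1) := mul_le_mul_of_nonneg_right hKN (by positivity)
      _ = (N : ℝ) ^ (1 + ((k : ℝ) + 1)) := by rw [← Real.rpow_add hN0]
      _ ≤ (N : ℝ) ^ (-(P : ℝ) + (1 / 2 + δ / 2) * (2 * k : ℕ)) := by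
          apply Real.rpow_le_rpow_of_exponent_le hN1
          push_cast
          nlinarith
      _ = _ := by
          rw [← Real.rpow_natCast ((N : ℝ) ^ (1 / 2 + δ / 2)), ← Real.rpow_mul hN0.le, Real.rpow_add hN0]
  have h6 : (Ex.card : ℝ) * ((N : ℝ) ^ (1 / 2 + δ / 2)) ^ (2 * k) ≤ ((N : ℝ) ^ (-(P : ℝ)) * Pr) * ((N : ℝ) ^ (1 / 2 + δ / 2)) ^ (2 * k) := by
    refine (h2.trans h1).trans ?_
    calc K * (N : ℝ) ^ ((k : ℝ) + 1) * Pr ≤ (N : ℝ) ^ (-(P : ℝ)) * ((N : ℝ) ^ (1 / 2 + δ / 2)) ^ (2 * k) * Pr :=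
          mul_le_mul_of_nonneg_right h4 hPr0
      _ = _ := by ring
  exact le_of_mul_le_mul_right h6 (by positivity)

open Classical in
/-- **The law for few digits.** -/
theorem law_digits (b d A C : ℕ) (hb : 2 ≤ b) (hd : 1 ≤ d) (δ : ℝ) (hδ : 0 < δ) : ∃ c : ℝ, 0 < c ∧ ∃ y₀ : ℕ,
    ∀ (K r : Fin d → ℕ) (y B : ℕ) (a : (Fin d → ℕ) → Ei), (∀ l, 2 * r l ≤ K l) → y₀ ≤ y → Aff d B a → B ≠ 0 → B ≤ y ^ A →
    ∀ Nn : Fin d → ℕ, (∀ l, Nn l < b ^ K l) → ∀ f : Fin d → ℕ → ℕ, (∀ l j, f l j < b ∧ f l j ≠ Nn l / b ^ j % b) →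
    ∀ (κ : Type) (w : κ → ℕ → ℂ) (Λ : ℕ → Finset κ), (∀ i n, ‖w i n‖ ≤ 1) → (∀ N, (Λ N).card ≤ N ^ A) →
    (((Fintype.piFinset (fun l => powersetCard (r l) (range (K l)))).filter (fun T => ¬ ∀ N : ℕ, y ≤ N → (∀ l, (N : ℝ) ≤ Real.exp (c * r l)) →
      Good w Λ C δ N (a (fun l => change b (K l) (Nn l) (f l) (T l))))).card : ℝ) ≤ 1 / (y : ℝ) ^ A * ∏ l, ((K l).choose (r l) : ℝ) := by
  obtain ⟨P, hP⟩ : ∃ P, P = (A + 4 + 4 * (C + 3)) + (A + 4) := ⟨_, rfl⟩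
  obtain ⟨c, hc, N₁, h⟩ := exc_one_digits b d hb hd δ hδ A (C + 2) P
  have h3L : 3 ∣ (b * b).factorial := Nat.dvd_factorial (by norm_num) (by nlinarith)
  obtain ⟨N₂, hred⟩ := good_of (b * b).factorial (Nat.factorial_ne_zero _) h3L C δ hδ
  refine ⟨c, hc, N₁ + N₂ + 2, fun K r y B a hrK hy ha hB hBy Nn hNn f hf κ w Λ hw hΛ => ?_⟩
  obtain ⟨Om, hOm⟩ : ∃ Om, Om = Fintype.piFinset (fun l => powersetCard (r l) (range (K l))) := ⟨_, rfl⟩
  rw [← hOm]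
  obtain ⟨Pr, hPr⟩ : ∃ Pr : ℝ, Pr = ∏ i, ((K i).choose (r i) : ℝ) := ⟨_, rfl⟩
  have hPr0 : 0 ≤ Pr := by rw [hPr]; exact prod_nonneg fun i _ => Nat.cast_nonneg _
  rw [← hPr]
  obtain ⟨x, hx⟩ : ∃ x : (Fin d → Finset ℕ) → Ei, x = fun T => a (fun l => change b (K l) (Nn l) (f l) (T l)) := ⟨_, rfl⟩
  obtain ⟨Ex, hEx⟩ : ∃ Ex : ℕ → (κ × (ZMod 3 × ZMod 3) × ((ℕ × ℕ) × (ℕ × ℕ))) → Finset (Fin d → Finset ℕ),
      Ex = fun (N : ℕ) q => Om.filter (fun T => (∀ l, (N : ℝ) ≤ Real.exp (c * r l)) ∧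
        (N : ℝ) ^ (1 / 2 + δ / 2) < ‖∑ c ∈ SL (b * b).factorial (q.2.2.2.1 / q.2.2.1.1) N (2 ^ q.2.2.1.2), WW w q c * FF c (x T)‖) := ⟨_, rfl⟩
  have hexc : ∀ N : ℕ, y ≤ N → ∀ q : κ × (ZMod 3 × ZMod 3) × ((ℕ × ℕ) × (ℕ × ℕ)), q ∈ PP Λ C N →
      ((Ex N q).card : ℝ) ≤ (N : ℝ) ^ (-(P : ℝ)) * Pr := by
    intro N hyN q hq
    have hN0 : (0 : ℝ) < N := by exact_mod_cast (by omega : 0 < N)
    by_cases hNc : ∀ l, (N : ℝ) ≤ Real.exp (c * r l)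
    · unfold PP at hq
      simp only [mem_product, mem_univ, mem_range, true_and] at hq
      rw [hPr]
      refine h r K N hrK (by omega) (fun i => (Real.log_le_iff_le_exp hN0).2 (hNc i)) Nn hNn f hf (q.2.2.2.1 / q.2.2.1.1) (2 ^ q.2.2.1.2) B ?_
        (Nat.one_le_pow _ _ (by norm_num)) hB (hBy.trans (Nat.pow_le_pow_left hyN A)) a ha
        (SL (b * b).factorial (q.2.2.2.1 / q.2.2.1.1) N (2 ^ q.2.2.1.2)) (filter_subset _ _) ?_ (WW w q) (WW_norm w hw q) (Ex N q) ?_ ?_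
      · exact (Nat.div_le_self _ _).trans (by omega)
      · intro n hn
        rw [mem_SL] at hn
        exact hn.2
      · rw [hEx, hOm]
        exact filter_subset _ _
      · intro T hT
        rw [hEx, mem_filter, hx] at hT
        exact hT.2.2
    · have : Ex N q = ∅ := by
        rw [hEx]
        apply filter_false_of_mem
        intro m _ hm
        exact hNc hm.1
      rw [this, card_empty, Nat.cast_zero]
      positivity
  obtain ⟨X, hX⟩ := exists_nat_ge (Real.exp (c * r ⟨0, hd⟩))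
  have hsub : Om.filter (fun T => ¬ ∀ N : ℕ, y ≤ N → (∀ l, (N : ℝ) ≤ Real.exp (c * r l)) →
      Good w Λ C δ N (a (fun l => change b (K l) (Nn l) (f l) (T l)))) ⊆ (Icc y X).biUnion (fun N => (PP Λ C N).biUnion (fun q => Ex N q)) := by
    intro T hT
    rw [mem_filter] at hT
    by_contra hcon
    apply hT.2
    intro N hyN hNc
    apply hred N (by omega)
    intro q hq
    by_contra hcon2
    push Not at hcon2
    apply hcon
    rw [mem_biUnion]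
    refine ⟨N, ?_, ?_⟩
    · rw [mem_Icc]
      refine ⟨hyN, ?_⟩
      have := (hNc ⟨0, hd⟩).trans hX
      exact_mod_cast this
    rw [mem_biUnion]
    refine ⟨q, hq, ?_⟩
    rw [hEx, mem_filter, hx]
    exact ⟨hT.1, hNc, hcon2⟩
  have hone : ∀ N ∈ Icc y X, (((PP Λ C N).biUnion (fun q => Ex N q)).card : ℝ) ≤ (N : ℝ) ^ (-((A + 4 : ℕ) : ℝ)) * Pr := by
    intro N hN
    rw [mem_Icc] at hN
    have hN0 : (0 : ℝ) < N := by exact_mod_cast (by omega : 0 < N)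
    have h1 : (((PP Λ C N).biUnion (fun q => Ex N q)).card : ℝ) ≤ ∑ q ∈ PP Λ C N, ((Ex N q).card : ℝ) := by
      exact_mod_cast card_biUnion_le
    refine h1.trans ((sum_le_sum (fun q hq => hexc N hN.1 q hq)).trans ?_)
    rw [sum_const, nsmul_eq_mul]
    have h2 : ((PP Λ C N).card : ℝ) ≤ (N : ℝ) ^ ((A + 4 + 4 * (C + 3) : ℕ) : ℝ) := by
      rw [Real.rpow_natCast]
      exact_mod_cast PP_card Λ A C N (by omega) (hΛ N)
    calc ((PP Λ C N).card : ℝ) * ((N : ℝ) ^ (-(P : ℝ)) * Pr) ≤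
          (N : ℝ) ^ ((A + 4 + 4 * (C + 3) : ℕ) : ℝ) * ((N : ℝ) ^ (-(P : ℝ)) * Pr) :=
          mul_le_mul_of_nonneg_right h2 (by positivity)
      _ = (N : ℝ) ^ (-((A + 4 : ℕ) : ℝ)) * Pr := by
          rw [← mul_assoc, ← Real.rpow_add hN0, hP]
          congr 2
          push_cast
          ring
  have hcard : ((Om.filter (fun T => ¬ ∀ N : ℕ, y ≤ N → (∀ l, (N : ℝ) ≤ Real.exp (c * r l)) →
      Good w Λ C δ N (a (fun l => change b (K l) (Nn l) (f l) (T l))))).card : ℝ) ≤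
      ∑ N ∈ Icc y X, (N : ℝ) ^ (-((A + 4 : ℕ) : ℝ)) * Pr := by
    have h1 := (card_le_card hsub).trans card_biUnion_le
    have h2 : ((Om.filter (fun T => ¬ ∀ N : ℕ, y ≤ N → (∀ l, (N : ℝ) ≤ Real.exp (c * r l)) →
        Good w Λ C δ N (a (fun l => change b (K l) (Nn l) (f l) (T l))))).card : ℝ) ≤
        ∑ N ∈ Icc y X, (((PP Λ C N).biUnion (fun q => Ex N q)).card : ℝ) := by exact_mod_cast h1
    exact h2.trans (sum_le_sum hone)
  refine hcard.trans ?_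
  rw [← sum_mul]
  exact mul_le_mul_of_nonneg_right (sum_tail A y X (by omega)) hPr0

end Pool.Agent.K7.H57.Cub
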