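import Pool.Agent.K7.H57.Cub.Mean

set_option autoImplicit false

/-! Lines and parallelograms in the ring of the Eisenstein integers. -/

namespace Pool.Agent.K7.H57.Cub
open Finset
open Pool.Agent.Y692.QS
open Pool.Agent.X22.CC
open Pool.Agent.TH894.NE (box mem_box card_box)
open Pool.Agent.Y715.T.Rec (cs nn)
open Pool.Agent.Y715.T.RecG (cs_spec cs_of)
open Pool.Agent.Y715.T.RecC (star_prime star_dvd)

lemma wC_conj (c : ZMod 3) : wC ^ (-c).val = (starRingEnd ℂ) (wC ^ c.val) := by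
  have h3 := wC_cube
  have key : ∀ c : ZMod 3, c = 0 ∨ c = 1 ∨ c = 2 := by decide
  have h1 : wC ^ 2 = (starRingEnd ℂ) wC := sq_conj (Or.inr h3)
  have h2 : (wC ^ 2) ^ 2 = (starRingEnd ℂ) (wC ^ 2) := sq_conj (Or.inr (by rw [← pow_mul, mul_comm, pow_mul, h3, one_pow]))
  rcases key c with h | h | h
  · rw [h]
    have e : (-(0 : ZMod 3)).val = 0 := by decide
    have e' : (0 : ZMod 3).val = 0 := by decide
    rw [e, e', pow_zero, map_one]
  · rw [h]
    have e : (-(1 : ZMod 3)).val = 2 := by decide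
    have e' : (1 : ZMod 3).val = 1 := by decide
    rw [e, e', pow_one, h1]
  · rw [h]
    have e : (-(2 : ZMod 3)).val = 1 := by decide
    have e' : (2 : ZMod 3).val = 2 := by decide
    rw [e, e', ← h2, pow_one]
    linear_combination (-wC) * h3

lemma loc_star {ρ : Ei} (hρ : Prime ρ) (h3 : ¬ ρ ∣ 3) (x : Ei) : loc (star ρ) (star x) = (starRingEnd ℂ) (loc ρ x) := by
  have hσ : Prime (star ρ) := star_prime hρ
  have h3σ : ¬ star ρ ∣ 3 := by
    intro h
    apply h3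
    have h1 := star_dvd h
    rw [star_star] at h1
    have h2 : star (3 : Ei) = 3 := by decide
    rwa [h2] at h1
  by_cases hx : ρ ∣ x
  · rw [loc_zero hx, loc_zero (star_dvd hx), map_zero]
  · have hx' : ¬ star ρ ∣ star x := by
      intro h
      apply hx
      have h1 := star_dvd h
      rwa [star_star, star_star] at h1
    rw [loc_ne hx, loc_ne hx', ← wC_conj]
    congr 2
    apply cs_of hσ h3σ
    have h1 := star_dvd (cs_spec hρ h3 hx)
    have h2 : nn (star ρ) = nn ρ := by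
      unfold nn
      rw [nr_star]
    have h3 : ∀ c : ZMod 3, star (w ^ c.val : Ei) = w ^ (-c).val := by
      intro c
      rw [star_pow, star_w]
      revert c
      decide
    rw [star_sub, star_pow, h3] at h1
    rw [h2]
    exact h1

lemma star_prod (s : Multiset Ei) : (s.map star).prod = star s.prod := by
  induction s using Multiset.induction_on with
  | empty => simp
  | cons a s ih => rw [Multiset.map_cons, Multiset.prod_cons, Multiset.prod_cons, star_mul, ih, mul_comm]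

lemma star_nat (n : ℕ) : star (n : Ei) = n := by
  have h1 : ∀ n : ℕ, star (n : Ei) = n := by
    intro n
    simp
  exact h1 n

lemma FF_star {n : ℕ} (hn : n ≠ 0) (h3 : ¬ 3 ∣ n) (x : Ei) : FF n (star x) = (starRingEnd ℂ) (FF n x) := by
  rw [FF_of hn h3 ((UniqueFactorizationMonoid.factors (n : Ei)).map star)]
  · unfold FF
    rw [Multiset.map_map, map_multiset_prod, Multiset.map_map]
    congr 1
    apply Multiset.map_congr rfl
    intro ρ hρ
    obtain ⟨h1, _, h4⟩ := factor_three hn h3 hρ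
    exact loc_star h1 (not_three h4 h1) x
  · intro ρ hρ
    rw [Multiset.mem_map] at hρ
    obtain ⟨σ, hσ, rfl⟩ := hρ
    exact star_prime (factor_three hn h3 hσ).1
  · rw [star_prod]
    obtain ⟨u, hu⟩ := UniqueFactorizationMonoid.factors_prod (nat_ne hn)
    have h1 : star (UniqueFactorizationMonoid.factors (n : Ei)).prod * star (u : Ei) = n := by
      rw [← star_mul, mul_comm, hu, star_nat]
    have h2 : IsUnit (star (u : Ei)) := by
      rw [isUnit_iff, nr_star]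
      exact isUnit_iff.1 u.isUnit
    obtain ⟨v, hv⟩ := h2
    exact ⟨v, by rw [hv]; exact h1⟩

lemma FF_ne {n : ℕ} (hn : n ≠ 0) (h3 : ¬ 3 ∣ n) {s : ℕ} (hs : s.Coprime n) : FF n (s : Ei) ≠ 0 := by
  unfold FF
  apply Multiset.prod_ne_zero
  intro h
  rw [Multiset.mem_map] at h
  obtain ⟨ρ, hρ, h0⟩ := h
  obtain ⟨h1, h2, h4⟩ := factor_three hn h3 hρ
  by_cases hd : ρ ∣ (s : Ei)
  · obtain ⟨u, v, huv⟩ := (Nat.isCoprime_iff_coprime.2 hs)
    have h5 : ρ ∣ 1 := by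
      have e : (1 : Ei) = ((u : ℤ) : Ei) * (s : Ei) + ((v : ℤ) : Ei) * (n : Ei) := by
        exact_mod_cast congrArg (fun z : ℤ => (z : Ei)) huv.symm
      rw [e]
      exact dvd_add (hd.mul_left _) (h2.mul_left _)
    exact h1.not_isUnit (isUnit_of_dvd_one h5)
  · rw [loc_ne hd] at h0
    have := wC_norm
    rw [pow_eq_zero_iff'] at h0
    rw [h0.1, norm_zero] at this
    exact zero_ne_one this

/-- the symbol at the rational integers -/
lemma FF_rat {n : ℕ} (hn : n ≠ 0) (h3 : ¬ 3 ∣ n) {s : ℕ} (hs : s.Coprime n) : FF n (s : Ei) = 1 := by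
  have h0 := FF_ne hn h3 hs
  have h1 := FF_star hn h3 (s : Ei)
  rw [star_nat, ← sq_conj (FF_val n (s : Ei)), sq] at h1
  have h2 : FF n (s : Ei) * 1 = FF n (s : Ei) * FF n (s : Ei) := by rw [mul_one]; exact h1
  exact (mul_left_cancel₀ h0 h2).symm

lemma FF_zero {p : ℕ} (hp : p.Prime) : FF p 0 = 0 := by
  have hnu : ¬ IsUnit (p : Ei) := by
    rw [isUnit_iff, nr_nat]
    have := hp.one_lt
    intro h
    have h1 : (1 : ℤ) < p := by exact_mod_cast this
    nlinarith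
  obtain ⟨ρ, hρm⟩ := UniqueFactorizationMonoid.exists_mem_factors (nat_ne hp.ne_zero) hnu
  unfold FF
  apply Multiset.prod_eq_zero
  rw [Multiset.mem_map]
  exact ⟨ρ, hρm, loc_zero (dvd_zero ρ)⟩

/-- the determinant -/
def dt (x y : Ei) : ℤ := x.re * y.im - x.im * y.re

/-- the change of variables -/
lemma sum_bij_mod (p : ℕ) (hp : 1 ≤ p) (ψ : (Fin 2 → ℕ) → Ei) (hψ : ∀ m ∈ box 2 p, ∀ m' ∈ box 2 p, (p : Ei) ∣ ψ m - ψ m' → m = m')
    (G : Ei → ℂ) (hG : ∀ x y : Ei, (p : Ei) ∣ x - y → G x = G y) : ∑ m ∈ box 2 p, G (ψ m) = ∑ m ∈ box 2 p, G (toE m) := by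
  classical
  obtain ⟨φ, hφ⟩ : ∃ φ : (Fin 2 → ℕ) → (Fin 2 → ℕ), φ = fun m => ![((ψ m).re % (p : ℤ)).toNat, ((ψ m).im % (p : ℤ)).toNat] := ⟨_, rfl⟩
  have hℓ0 : (p : ℤ) ≠ 0 := by omega
  have hℓp : (0 : ℤ) < p := by omega
  have hco : ∀ m, ((φ m 0 : ℕ) : ℤ) = (ψ m).re % (p : ℤ) ∧ ((φ m 1 : ℕ) : ℤ) = (ψ m).im % (p : ℤ) := by
    intro m
    rw [hφ]
    constructor
    · simp only [Matrix.cons_val_zero]
      exact Int.toNat_of_nonneg (Int.emod_nonneg _ hℓ0)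
    · simp only [Matrix.cons_val_one]
      exact Int.toNat_of_nonneg (Int.emod_nonneg _ hℓ0)
  have hdiv : ∀ m, (p : Ei) ∣ ψ m - toE (φ m) := by
    intro m
    have h1 : (((p : ℤ) : Ei)) ∣ ψ m - toE (φ m) := by
      rw [int_dvd, QuadraticAlgebra.re_sub, QuadraticAlgebra.im_sub]
      have e1 : (toE (φ m)).re = ((φ m 0 : ℕ) : ℤ) := rfl
      have e2 : (toE (φ m)).im = ((φ m 1 : ℕ) : ℤ) := rfl
      rw [e1, e2, (hco m).1, (hco m).2]
      exact ⟨Int.dvd_self_sub_emod, Int.dvd_self_sub_emod⟩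
    exact_mod_cast h1
  have hmaps : ∀ m ∈ box 2 p, φ m ∈ box 2 p := by
    intro m _
    rw [mem_box]
    intro i
    have h1 := hco m
    have h2 := Int.emod_lt_of_pos (ψ m).re hℓp
    have h3 := Int.emod_lt_of_pos (ψ m).im hℓp
    fin_cases i
    · show φ m 0 < p
      omega
    · show φ m 1 < p
      omega
  have hinj : Set.InjOn φ (box 2 p : Set (Fin 2 → ℕ)) := by
    intro m hm m' hm' h
    apply hψ m hm m' hm'
    have h2 := dvd_sub (hdiv m) (hdiv m')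
    rw [h] at h2
    have e : ψ m - ψ m' = ψ m - toE (φ m') - (ψ m' - toE (φ m')) := by ring
    rw [e]
    exact h2
  have hsurj : Set.SurjOn φ (box 2 p : Set (Fin 2 → ℕ)) (box 2 p : Set (Fin 2 → ℕ)) :=
    surjOn_of_injOn_of_card_le _ (fun n hn => hmaps n hn) hinj le_rfl
  refine sum_nbij φ hmaps hinj hsurj ?_
  intro m _
  exact hG _ _ (hdiv m)

lemma eq_of_mod {p a b : ℕ} (ha : a < p) (hb : b < p) (h : (p : ℤ) ∣ (a : ℤ) - b) : a = b := by
  have h4 : (b : ℤ) ≡ a [ZMOD p] := (Int.modEq_iff_dvd).2 h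
  have h5 : b ≡ a [MOD p] := (Int.natCast_modEq_iff).1 h4
  exact (Nat.ModEq.eq_of_lt_of_lt h5 hb ha).symm

/-- the change of variables for parallelograms -/
lemma par_inj (p : ℕ) (hp : p.Prime) (β γ₁ γ₂ : Ei) (hd : ¬ (p : ℤ) ∣ dt γ₁ γ₂) :
    ∀ m ∈ box 2 p, ∀ m' ∈ box 2 p, (p : Ei) ∣ (β + (m 0 : Ei) * γ₁ + (m 1 : Ei) * γ₂) - (β + (m' 0 : Ei) * γ₁ + (m' 1 : Ei) * γ₂) → m = m' := by
  intro m hm m' hm' h
  rw [mem_box] at hm hm'
  have hpZ : Prime (p : ℤ) := Nat.prime_iff_prime_int.1 hp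
  obtain ⟨x, hx⟩ : ∃ x : ℤ, x = (m 0 : ℤ) - m' 0 := ⟨_, rfl⟩
  obtain ⟨y, hy⟩ : ∃ y : ℤ, y = (m 1 : ℤ) - m' 1 := ⟨_, rfl⟩
  have e : (β + (m 0 : Ei) * γ₁ + (m 1 : Ei) * γ₂) - (β + (m' 0 : Ei) * γ₁ + (m' 1 : Ei) * γ₂) = (x : Ei) * γ₁ + (y : Ei) * γ₂ := by
    rw [hx, hy]
    push_cast
    ring
  have h1 : (((p : ℤ) : Ei)) ∣ (x : Ei) * γ₁ + (y : Ei) * γ₂ := by
    rw [← e]
    exact_mod_cast h
  rw [int_dvd] at h1
  have e1 : ((x : Ei) * γ₁ + (y : Ei) * γ₂).re = x * γ₁.re + y * γ₂.re := by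
    simp
  have e2 : ((x : Ei) * γ₁ + (y : Ei) * γ₂).im = x * γ₁.im + y * γ₂.im := by
    simp
  rw [e1, e2] at h1
  have h2 : (p : ℤ) ∣ x * dt γ₁ γ₂ := by
    have : x * dt γ₁ γ₂ = (x * γ₁.re + y * γ₂.re) * γ₂.im - (x * γ₁.im + y * γ₂.im) * γ₂.re := by
      unfold dt
      ring
    rw [this]
    exact dvd_sub (h1.1.mul_right _) (h1.2.mul_right _)
  have h3 : (p : ℤ) ∣ y * dt γ₁ γ₂ := by
    have : y * dt γ₁ γ₂ = (x * γ₁.im + y * γ₂.im) * γ₁.re - (x * γ₁.re + y * γ₂.re) * γ₁.im := by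
      unfold dt
      ring
    rw [this]
    exact dvd_sub (h1.2.mul_right _) (h1.1.mul_right _)
  have h4 : (p : ℤ) ∣ x := (hpZ.dvd_or_dvd h2).resolve_right hd
  have h5 : (p : ℤ) ∣ y := (hpZ.dvd_or_dvd h3).resolve_right hd
  rw [hx] at h4
  rw [hy] at h5
  funext i
  fin_cases i
  · exact eq_of_mod (hm 0) (hm' 0) h4
  · exact eq_of_mod (hm 1) (hm' 1) h5

/-- **parallelograms** -/
theorem par_aff (β γ₁ γ₂ : Ei) : Aff 2 (dt γ₁ γ₂).natAbs (fun m => β + (m 0 : Ei) * γ₁ + (m 1 : Ei) * γ₂) where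
  per q m := by
    have h : ∀ i : Fin 2, ∃ t : ℕ, (m i : Ei) = ((m i % q : ℕ) : Ei) + (q : Ei) * t := by
      intro i
      refine ⟨m i / q, ?_⟩
      exact_mod_cast congrArg (fun z : ℕ => (z : Ei)) (Nat.mod_add_div (m i) q).symm
    obtain ⟨t, ht⟩ := h 0
    obtain ⟨u, hu⟩ := h 1
    refine ⟨(t : Ei) * γ₁ + (u : Ei) * γ₂, ?_⟩
    show (β + (m 0 : Ei) * γ₁ + (m 1 : Ei) * γ₂) - (β + ((m 0 % q : ℕ) : Ei) * γ₁ + ((m 1 % q : ℕ) : Ei) * γ₂) = _
    rw [ht, hu]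
    ring
  mean p hp h3 hB := by
    have h3' : ¬ 3 ∣ p := fun h => h3 (((Nat.prime_dvd_prime_iff_eq Nat.prime_three hp).1 h).symm)
    have hd : ¬ (p : ℤ) ∣ dt γ₁ γ₂ := fun h => hB (Int.natCast_dvd.1 h)
    rw [sum_bij_mod p hp.one_lt.le _ (par_inj p hp β γ₁ γ₂ hd) (FF p) (fun x y h => FF_congr hp.ne_zero h3' h), FF_mean p hp h3, norm_zero, zero_mul]
    positivity

lemma box_one (p : ℕ) (f : ℕ → ℂ) : ∑ m ∈ box 1 p, f (m 0) = ∑ t ∈ range p, f t := by
  refine sum_nbij' (fun m => m 0) (fun t => fun _ => t) ?_ ?_ ?_ ?_ ?_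
  · intro m hm
    rw [mem_box] at hm
    exact mem_range.2 (hm 0)
  · intro t ht
    rw [mem_box]
    intro i
    exact mem_range.1 ht
  · intro m _
    funext i
    rw [Subsingleton.elim i 0]
  · intro t _
    rfl
  · intro m _
    rfl

lemma box_two (p : ℕ) (f : ℕ → ℕ → ℂ) : ∑ m ∈ box 2 p, f (m 0) (m 1) = ∑ s ∈ range p, ∑ t ∈ range p, f s t := by
  rw [← sum_product']
  refine sum_nbij' (fun m => (m 0, m 1)) (fun z => ![z.1, z.2]) ?_ ?_ ?_ ?_ ?_
  · intro m hm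
    rw [mem_box] at hm
    exact mem_product.2 ⟨mem_range.2 (hm 0), mem_range.2 (hm 1)⟩
  · intro z hz
    rw [mem_product, mem_range, mem_range] at hz
    rw [mem_box]
    intro i
    fin_cases i
    · exact hz.1
    · exact hz.2
  · intro m _
    funext i
    fin_cases i <;> rfl
  · intro z _
    rfl
  · intro m _
    rfl

/-- **the sums over lines** -/
lemma line_sum (p : ℕ) (hp : p.Prime) (h3 : p ≠ 3) (β γ : Ei) (hd : ¬ (p : ℤ) ∣ dt β γ) :
    ∑ t ∈ range p, FF p (β + (t : Ei) * γ) = - FF p γ := by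
  have h3' : ¬ 3 ∣ p := fun h => h3 (((Nat.prime_dvd_prime_iff_eq Nat.prime_three hp).1 h).symm)
  have hp0 := hp.ne_zero
  have h1 := sum_bij_mod p hp.one_lt.le _ (par_inj p hp 0 β γ hd) (FF p) (fun x y h => FF_congr hp0 h3' h)
  rw [FF_mean p hp h3] at h1
  simp only [zero_add] at h1
  rw [box_two p (fun s t => FF p ((s : Ei) * β + (t : Ei) * γ))] at h1
  have hcop : ∀ t ∈ range p, t ≠ 0 → t.Coprime p := by
    intro t ht h0
    rw [mem_range] at ht
    exact (Nat.coprime_of_lt_prime h0 ht hp).symm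
  obtain ⟨f, hf⟩ : ∃ f, f = ∑ t ∈ range p, FF p (β + (t : Ei) * γ) := ⟨_, rfl⟩
  rw [← hf]
  have h2 : ∀ s ∈ range p, s ≠ 0 → ∑ t ∈ range p, FF p ((s : Ei) * β + (t : Ei) * γ) = f := by
    intro s hs h0
    have hsc := hcop s hs h0
    have hmaps : ∀ t ∈ range p, s * t % p ∈ range p := fun t _ => mem_range.2 (Nat.mod_lt _ hp.pos)
    have hinj : Set.InjOn (fun t => s * t % p) (range p : Set ℕ) := by
      intro t ht t' ht' h
      rw [mem_coe, mem_range] at ht ht'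
      have h5 : s * t ≡ s * t' [MOD p] := h
      have h6 : t ≡ t' [MOD p] := Nat.ModEq.cancel_left_of_coprime (by rw [Nat.gcd_comm]; exact hsc) h5
      exact Nat.ModEq.eq_of_lt_of_lt h6 ht ht'
    have hsurj : Set.SurjOn (fun t => s * t % p) (range p : Set ℕ) (range p : Set ℕ) :=
      surjOn_of_injOn_of_card_le _ (fun n hn => hmaps n hn) hinj le_rfl
    rw [hf]
    symm
    refine sum_nbij (fun t => s * t % p) hmaps hinj hsurj ?_
    intro t _
    have h5 : FF p ((s : Ei) * β + ((s * t % p : ℕ) : Ei) * γ) = FF p ((s : Ei) * (β + (t : Ei) * γ)) := by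
      apply FF_congr hp0 h3'
      refine ⟨-(((s * t / p : ℕ) : Ei) * γ), ?_⟩
      have h6 : ((s : Ei) * (t : Ei)) = ((s * t % p : ℕ) : Ei) + (p : Ei) * ((s * t / p : ℕ) : Ei) := by
        exact_mod_cast congrArg (fun z : ℕ => (z : Ei)) (Nat.mod_add_div (s * t) p).symm
      linear_combination (-γ) * h6
    rw [h5, FF_mul_right hp0 h3', FF_rat hp0 h3' hsc, one_mul]
  have h4 : ∑ t ∈ range p, FF p (((0 : ℕ) : Ei) * β + (t : Ei) * γ) = ((p : ℂ) - 1) * FF p γ := by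
    have h5 : ∀ t ∈ range p, FF p (((0 : ℕ) : Ei) * β + (t : Ei) * γ) = if t = 0 then 0 else FF p γ := by
      intro t ht
      split_ifs with h0
      · rw [h0, Nat.cast_zero, zero_mul, zero_mul, add_zero]
        exact FF_zero hp
      · rw [Nat.cast_zero, zero_mul, zero_add, FF_mul_right hp0 h3', FF_rat hp0 h3' (hcop t ht h0), one_mul]
    rw [sum_congr rfl h5]
    obtain ⟨p', hp'⟩ := Nat.exists_eq_succ_of_ne_zero hp0
    rw [hp', sum_range_succ']
    simp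
  have h5 : ∑ s ∈ range p, ∑ t ∈ range p, FF p ((s : Ei) * β + (t : Ei) * γ) = ((p : ℂ) - 1) * FF p γ + ((p : ℂ) - 1) * f := by
    have h6 : ∀ s ∈ range p, ∑ t ∈ range p, FF p ((s : Ei) * β + (t : Ei) * γ) = if s = 0 then ((p : ℂ) - 1) * FF p γ else f := by
      intro s hs
      split_ifs with h0
      · rw [h0]
        exact h4
      · exact h2 s hs h0
    rw [sum_congr rfl h6]
    obtain ⟨p', hp'⟩ := Nat.exists_eq_succ_of_ne_zero hp0
    rw [hp', sum_range_succ']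
    simp
    ring
  rw [h5] at h1
  have h6 : ((p : ℂ) - 1) ≠ 0 := by
    rw [sub_ne_zero]
    exact_mod_cast hp.one_lt.ne'
  have h7 : ((p : ℂ) - 1) * (FF p γ + f) = 0 := by rw [mul_add]; exact h1
  rcases mul_eq_zero.1 h7 with h | h
  · exact absurd h h6
  · exact eq_neg_of_add_eq_zero_right h

/-- **lines** -/
theorem line_aff (β γ : Ei) : Aff 1 (dt β γ).natAbs (fun m => β + (m 0 : Ei) * γ) where
  per q m := by
    refine ⟨((m 0 / q : ℕ) : Ei) * γ, ?_⟩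
    show (β + (m 0 : Ei) * γ) - (β + ((m 0 % q : ℕ) : Ei) * γ) = _
    have h : (m 0 : Ei) = ((m 0 % q : ℕ) : Ei) + (q : Ei) * ((m 0 / q : ℕ) : Ei) := by
      exact_mod_cast congrArg (fun z : ℕ => (z : Ei)) (Nat.mod_add_div (m 0) q).symm
    rw [h]
    ring
  mean p hp h3 hB := by
    have hd : ¬ (p : ℤ) ∣ dt β γ := fun h => hB (Int.natCast_dvd.1 h)
    rw [box_one p (fun t => FF p (β + (t : Ei) * γ)), line_sum p hp h3 β γ hd, norm_neg, pow_one]
    calc ‖FF p γ‖ * p ≤ 1 * p := mul_le_mul_of_nonneg_right (FF_norm _ _) (Nat.cast_nonneg _)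
      _ = p := one_mul _

end Pool.Agent.K7.H57.Cub
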