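import Pool.Agent.K7.H57.Cub.Core
import Pool.Agent.X22.CC2

set_option autoImplicit false

/-! Means of cubic residue symbols over affine families of Eisenstein integers. -/

namespace Pool.Agent.K7.H57.Cub
open Finset
open Pool.Agent.Y692.QS
open Pool.Agent.X22.CC
open Pool.Agent.TH894.NE (box mem_box card_box)
open Pool.Agent.X22.MT (PerC two_modC box_mul)

/-- the families -/
structure Aff (d B : ℕ) (a : (Fin d → ℕ) → Ei) : Prop where
  per : ∀ q : ℕ, ∀ m, (q : Ei) ∣ a m - a (fun i => m i % q)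
  mean : ∀ p : ℕ, p.Prime → p ≠ 3 → ¬ p ∣ B → ‖∑ m ∈ box d p, FF p (a m)‖ * p ≤ (p : ℝ) ^ d

lemma loc_val (ρ x : Ei) : loc ρ x = 0 ∨ loc ρ x ^ 3 = 1 := by
  by_cases h : ρ ∣ x
  · exact Or.inl (loc_zero h)
  · right
    rw [loc_ne h, ← pow_mul, mul_comm, pow_mul, wC_cube, one_pow]

lemma FF_val (n : ℕ) (x : Ei) : FF n x = 0 ∨ FF n x ^ 3 = 1 := by
  unfold FF
  generalize UniqueFactorizationMonoid.factors (n : Ei) = s
  induction s using Multiset.induction_on with
  | empty => right; simp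
  | cons a s ih =>
    rw [Multiset.map_cons, Multiset.prod_cons]
    rcases loc_val a x with h | h
    · left; rw [h, zero_mul]
    · rcases ih with h' | h'
      · left; rw [h', mul_zero]
      · right; rw [mul_pow, h, h', one_mul]

lemma FF_one (x : Ei) : FF 1 x = 1 := by
  rw [FF_of one_ne_zero (by norm_num) 0]
  · simp
  · intro ρ hρ
    simp at hρ
  · simp

lemma three_pow {n : ℕ} (h : ¬ 3 ∣ n) (a : ℕ) : ¬ 3 ∣ n ^ a := fun h' => h (Nat.prime_three.dvd_of_dvd_pow h')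

lemma FF_pow {n : ℕ} (hn : n ≠ 0) (h3 : ¬ 3 ∣ n) (x : Ei) (a : ℕ) : FF (n ^ a) x = FF n x ^ a := by
  induction a with
  | zero => rw [pow_zero, pow_zero, FF_one]
  | succ a ih => rw [pow_succ, FF_mul (pow_ne_zero _ hn) hn (three_pow h3 a) h3, ih, pow_succ]

lemma FF_prod {ι : Type*} (s : Finset ι) (n : ι → ℕ) (hn : ∀ i ∈ s, n i ≠ 0) (h3 : ∀ i ∈ s, ¬ 3 ∣ n i) (x : Ei) :
    FF (∏ i ∈ s, n i) x = ∏ i ∈ s, FF (n i) x := by
  classical
  induction s using Finset.induction_on with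
  | empty => rw [prod_empty, prod_empty, FF_one]
  | insert j s hj ih =>
    rw [prod_insert hj, prod_insert hj, FF_mul (hn j (mem_insert_self j s)) ?_ (h3 j (mem_insert_self j s)) ?_,
      ih (fun i hi => hn i (mem_insert_of_mem hi)) (fun i hi => h3 i (mem_insert_of_mem hi))]
    · exact prod_ne_zero_iff.2 fun i hi => hn i (mem_insert_of_mem hi)
    · intro h
      obtain ⟨i, hi, h'⟩ := (Nat.Prime.prime Nat.prime_three).exists_mem_finset_dvd h
      exact h3 i (mem_insert_of_mem hi) h'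

lemma sq_conj {z : ℂ} (h : z = 0 ∨ z ^ 3 = 1) : z ^ 2 = (starRingEnd ℂ) z := by
  rcases h with h | h
  · rw [h, map_zero]
    norm_num
  · have h1 : ‖z‖ = 1 := Complex.norm_eq_one_of_pow_eq_one h (by norm_num)
    have h2 : z * (starRingEnd ℂ) z = 1 := by
      rw [Complex.mul_conj, Complex.normSq_eq_norm_sq, h1]
      norm_num
    have h3 : z ≠ 0 := by
      rintro rfl
      norm_num at h
    apply mul_left_cancel₀ h3
    rw [h2, ← h]
    ring

lemma pow_mod {z : ℂ} (h : z = 0 ∨ z ^ 3 = 1) {n : ℕ} (hn : ¬ 3 ∣ n) : z ^ n = z ∨ z ^ n = (starRingEnd ℂ) z := by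
  rcases h with h | h
  · left
    rw [h]
    apply zero_pow
    rintro rfl
    exact hn (dvd_zero 3)
  · have h1 := Nat.mod_add_div n 3
    have h2 : n % 3 = 1 ∨ n % 3 = 2 := by omega
    rcases h2 with h2 | h2
    · left
      rw [← h1, h2, pow_add, pow_mul, h, one_pow, mul_one, pow_one]
    · right
      rw [← h1, h2, pow_add, pow_mul, h, one_pow, mul_one]
      exact sq_conj (Or.inr h)

lemma pow_conj_unif {z : ℂ} (h : z = 0 ∨ z ^ 3 = 1) {n : ℕ} (hn : n % 3 = 1) : z ^ n = z := by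
  rcases h with h | h
  · rw [h]
    apply zero_pow
    rintro rfl
    simp at hn
  · have h1 := Nat.mod_add_div n 3
    rw [← h1, hn, pow_add, pow_mul, h, one_pow, mul_one, pow_one]

lemma pow_conj_two {z : ℂ} (h : z = 0 ∨ z ^ 3 = 1) {n : ℕ} (hn : n % 3 = 2) : z ^ n = (starRingEnd ℂ) z := by
  have h1 := Nat.mod_add_div n 3
  rcases h with h | h
  · rw [h, map_zero]
    apply zero_pow
    rintro rfl
    simp at hn
  · rw [← h1, hn, pow_add, pow_mul, h, one_pow, mul_one]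
    exact sq_conj (Or.inr h)

lemma Zr_prime_pow {p n : ℕ} (hp : p.Prime) (hn : 0 < n) (B : ℕ) : Zr (p ^ n) B = if ¬ 3 ∣ n ∧ ¬ p ∣ B then p else 1 := by
  unfold Zr
  rw [Nat.primeFactors_prime_pow hn.ne' hp, filter_singleton, Nat.Prime.factorization_pow hp, Finsupp.single_eq_same]
  split_ifs
  · rw [prod_singleton]
  · rw [prod_empty]

lemma Zr_one (B : ℕ) : Zr 1 B = 1 := by
  unfold Zr
  rw [Nat.primeFactors_one, filter_empty, prod_empty]

lemma Zr_mul {u v : ℕ} (B : ℕ) (h : Nat.Coprime u v) : Zr (u * v) B = Zr u B * Zr v B := by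
  classical
  have key : ∀ u v : ℕ, Nat.Coprime u v → (u.primeFactors.filter (fun p => ¬ 3 ∣ (u * v).factorization p ∧ ¬ p ∣ B)) =
      u.primeFactors.filter (fun p => ¬ 3 ∣ u.factorization p ∧ ¬ p ∣ B) := by
    intro u v h
    apply filter_congr
    intro p hp
    have h1 : ¬ p ∣ v := by
      intro h2
      exact Nat.not_coprime_of_dvd_of_dvd (Nat.prime_of_mem_primeFactors hp).one_lt (Nat.dvd_of_mem_primeFactors hp) h2 h
    rw [Nat.factorization_mul_apply_of_coprime h, Nat.factorization_eq_zero_of_not_dvd h1, add_zero]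
  unfold Zr
  rw [h.primeFactors_mul, filter_union, prod_union, key u v h]
  · congr 1
    rw [mul_comm u v, key v u h.symm]
  · exact disjoint_filter_filter h.disjoint_primeFactors

lemma triv {d : ℕ} (a : (Fin d → ℕ) → Ei) (q L : ℕ) : ‖∑ m ∈ box d L, FF q (a m)‖ ≤ (L : ℝ) ^ d := by
  refine (norm_sum_le _ _).trans ?_
  have h1 : ((box d L).card : ℝ) = (L : ℝ) ^ d := by
    rw [card_box]
    push_cast
    rfl
  rw [← h1, ← nsmul_one]
  exact sum_le_card_nsmul _ _ _ fun m _ => FF_norm _ _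

lemma pow_diff (d : ℕ) (L x q : ℝ) (hx : 0 ≤ x) (hxL : x ≤ L) (hq : L - x ≤ q) : (L ^ d - x ^ d) * L ≤ d * q * L ^ d := by
  have hL : 0 ≤ L := hx.trans hxL
  induction d with
  | zero => simp
  | succ d ih =>
    have h1 : x ^ d ≤ L ^ d := pow_le_pow_left₀ hx hxL d
    have h2 : 0 ≤ x ^ d := by positivity
    have h3 : x ^ d * (L - x) ≤ L ^ d * q := mul_le_mul h1 hq (by linarith) (by positivity)
    have e : (L ^ (d + 1) - x ^ (d + 1)) * L = L * ((L ^ d - x ^ d) * L) + x ^ d * (L - x) * L := by ring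
    rw [e]
    push_cast
    calc L * ((L ^ d - x ^ d) * L) + x ^ d * (L - x) * L ≤ L * (d * q * L ^ d) + L ^ d * q * L := by gcongr
      _ = _ := by ring

section
variable {d B : ℕ} {a : (Fin d → ℕ) → Ei} (ha : Aff d B a)
include ha

lemma perC {q : ℕ} (hq : q ≠ 0) (h3 : ¬ 3 ∣ q) : PerC q (fun m => FF q (a m)) := by
  intro m
  exact FF_congr hq h3 (ha.per q m)

/-- **the complete sums** -/
lemma full_mean (q : ℕ) (hq : q ≠ 0) (h3 : ¬ 3 ∣ q) : ‖∑ m ∈ box d q, FF q (a m)‖ * Zr q B ≤ (q : ℝ) ^ d := by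
  induction q using Nat.recOnPosPrimePosCoprime with
  | zero => exact absurd rfl hq
  | one =>
    rw [Zr_one, Nat.cast_one, mul_one]
    exact_mod_cast triv a 1 1
  | prime_pow p n hp hn =>
    have h3p : ¬ 3 ∣ p := fun h => h3 (dvd_pow h hn.ne')
    have hp3 : p ≠ 3 := by
      rintro rfl
      exact h3p (dvd_refl 3)
    rw [Zr_prime_pow hp hn]
    by_cases hc : ¬ 3 ∣ n ∧ ¬ p ∣ B
    · rw [if_pos hc]
      have hper : PerC p (fun m => FF (p ^ n) (a m)) := by
        intro m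
        show FF (p ^ n) (a m) = FF (p ^ n) (a (fun i => m i % p))
        rw [FF_pow hp.ne_zero h3p, FF_pow hp.ne_zero h3p]
        congr 1
        exact perC ha hp.ne_zero h3p m
      obtain ⟨n', rfl⟩ := Nat.exists_eq_succ_of_ne_zero hn.ne'
      have e1 : ∑ m ∈ box d (p ^ (n' + 1)), FF (p ^ (n' + 1)) (a m) = ((p ^ n' : ℕ) : ℂ) ^ d * ∑ m ∈ box d p, FF (p ^ (n' + 1)) (a m) := by
        have := box_mul (d := d) p (p ^ n') hp.one_lt.le (Nat.one_le_pow _ _ hp.pos) (fun m => FF (p ^ (n' + 1)) (a m)) hper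
        rw [← this, pow_succ']
      have e2 : ‖∑ m ∈ box d p, FF (p ^ (n' + 1)) (a m)‖ = ‖∑ m ∈ box d p, FF p (a m)‖ := by
        have h2 : (n' + 1) % 3 = 1 ∨ (n' + 1) % 3 = 2 := by
          have := hc.1
          rw [Nat.succ_eq_add_one] at this
          omega
        rcases h2 with h2 | h2
        · congr 1
          apply sum_congr rfl
          intro m _
          rw [FF_pow hp.ne_zero h3p, pow_conj_unif (FF_val _ _) h2]
        · rw [← RCLike.norm_conj (∑ m ∈ box d p, FF p (a m)), map_sum]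
          congr 1
          apply sum_congr rfl
          intro m _
          rw [FF_pow hp.ne_zero h3p, pow_conj_two (FF_val _ _) h2]
      rw [Nat.succ_eq_add_one, e1, norm_mul, norm_pow, Complex.norm_natCast, e2, mul_assoc]
      calc (((p ^ n' : ℕ) : ℝ)) ^ d * (‖∑ m ∈ box d p, FF p (a m)‖ * p) ≤ (((p ^ n' : ℕ) : ℝ)) ^ d * (p : ℝ) ^ d :=
            mul_le_mul_of_nonneg_left (ha.mean p hp hp3 hc.2) (by positivity)
        _ = _ := by
            rw [← mul_pow]
            congr 1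
            push_cast
            ring
    · rw [if_neg hc, Nat.cast_one, mul_one]
      exact triv a _ _
  | coprime u v hu hv huv ihu ihv =>
    have h3u : ¬ 3 ∣ u := fun h => h3 (h.mul_right v)
    have h3v : ¬ 3 ∣ v := fun h => h3 (h.mul_left u)
    have e1 : ∑ m ∈ box d (u * v), FF (u * v) (a m) = (∑ m ∈ box d u, FF u (a m)) * ∑ m ∈ box d v, FF v (a m) := by
      rw [← two_modC u v hu.le hv.le huv (fun m => FF u (a m)) (fun m => FF v (a m)) (perC ha (by omega) h3u) (perC ha (by omega) h3v)]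
      apply sum_congr rfl
      intro m _
      exact FF_mul (by omega) (by omega) h3u h3v _
    rw [e1, norm_mul, Zr_mul B huv]
    have h1 := ihu (by omega) h3u
    have h2 := ihv (by omega) h3v
    calc ‖∑ m ∈ box d u, FF u (a m)‖ * ‖∑ m ∈ box d v, FF v (a m)‖ * ((Zr u B * Zr v B : ℕ) : ℝ) =
          (‖∑ m ∈ box d u, FF u (a m)‖ * Zr u B) * (‖∑ m ∈ box d v, FF v (a m)‖ * Zr v B) := by push_cast; ring
      _ ≤ (u : ℝ) ^ d * (v : ℝ) ^ d := mul_le_mul h1 h2 (by positivity) (by positivity)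
      _ = _ := by
          rw [← mul_pow]
          push_cast
          rfl

lemma mult_mean (q t : ℕ) (hq : q ≠ 0) (h3 : ¬ 3 ∣ q) (ht : t ≠ 0) : ‖∑ m ∈ box d (q * t), FF q (a m)‖ ≤ ((q * t : ℕ) : ℝ) ^ d / Zr q B := by
  have hZ : (0 : ℝ) < Zr q B := by exact_mod_cast Zr_pos q B
  rw [box_mul q t (by omega) (by omega) _ (perC ha hq h3), norm_mul, norm_pow, Complex.norm_natCast, le_div_iff₀ hZ, mul_assoc]
  calc (t : ℝ) ^ d * (‖∑ m ∈ box d q, FF q (a m)‖ * Zr q B) ≤ (t : ℝ) ^ d * (q : ℝ) ^ d :=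
        mul_le_mul_of_nonneg_left (full_mean ha q hq h3) (by positivity)
    _ = _ := by
        rw [← mul_pow]
        push_cast
        ring

/-- the sums over boxes -/
lemma box_mean (q L : ℕ) (hq : q ≠ 0) (h3 : ¬ 3 ∣ q) (hL : L ≠ 0) :
    ‖∑ m ∈ box d L, FF q (a m)‖ ≤ (L : ℝ) ^ d * (1 / Zr q B + d * q / L) := by
  classical
  have hL0 : (0 : ℝ) < L := by exact_mod_cast Nat.pos_of_ne_zero hL
  have hZ : (0 : ℝ) < Zr q B := by exact_mod_cast Zr_pos q B
  obtain ⟨t, ht⟩ : ∃ t, t = L / q := ⟨_, rfl⟩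
  have hqt : q * t ≤ L := by rw [ht]; exact Nat.mul_div_le L q
  have hqt2 : L < q * t + q := by
    rw [ht]
    have := Nat.lt_mul_div_succ L (Nat.pos_of_ne_zero hq)
    rw [mul_add, mul_one] at this
    exact this
  have hsub : box d (q * t) ⊆ box d L := by
    intro m hm
    rw [mem_box] at hm ⊢
    intro i
    exact (hm i).trans_le hqt
  have h1 : ‖∑ m ∈ box d (q * t), FF q (a m)‖ ≤ (L : ℝ) ^ d * (1 / Zr q B) := by
    rcases Nat.eq_zero_or_pos t with h0 | h0
    · rcases Nat.eq_zero_or_pos d with hd | hd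
      · subst hd
        have h2 := full_mean ha q hq h3
        simp only [pow_zero, one_mul] at h2 ⊢
        rw [le_div_iff₀ hZ]
        refine le_trans (le_of_eq ?_) h2
        congr 3
      · have : box d (q * t) = ∅ := by
          rw [h0, mul_zero]
          apply eq_empty_of_forall_notMem
          intro m hm
          rw [mem_box] at hm
          exact Nat.not_lt_zero _ (hm ⟨0, hd⟩)
        rw [this, sum_empty, norm_zero]
        positivity
    · refine (mult_mean ha q t hq h3 h0.ne').trans ?_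
      rw [mul_one_div]
      apply div_le_div_of_nonneg_right _ hZ.le
      apply pow_le_pow_left₀ (Nat.cast_nonneg _)
      exact_mod_cast hqt
  have h2 : ‖∑ m ∈ box d L \ box d (q * t), FF q (a m)‖ ≤ (L : ℝ) ^ d * (d * q / L) := by
    have h3 : ‖∑ m ∈ box d L \ box d (q * t), FF q (a m)‖ ≤ ((box d L \ box d (q * t)).card : ℝ) := by
      refine (norm_sum_le _ _).trans ?_
      rw [← nsmul_one]
      exact sum_le_card_nsmul _ _ _ fun m _ => FF_norm _ _
    refine h3.trans ?_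
    rw [card_sdiff_of_subset hsub, card_box, card_box, Nat.cast_sub (Nat.pow_le_pow_left hqt d)]
    push_cast
    have h4 := pow_diff d (L : ℝ) ((q : ℝ) * t) q (by positivity) (by exact_mod_cast hqt) (by
      have : (L : ℝ) < q * t + q := by exact_mod_cast hqt2
      linarith)
    rw [← mul_div_assoc, le_div_iff₀ hL0]
    calc ((L : ℝ) ^ d - ((q : ℝ) * t) ^ d) * L ≤ _ := h4
      _ = _ := by ring
  rw [← sum_sdiff hsub]
  refine (norm_add_le _ _).trans ?_
  rw [mul_add, add_comm]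
  exact add_le_add h1 h2

end

/-- the signs -/
def sg (k : ℕ) : Fin (k + k) → ℕ := Fin.addCases (fun _ => 1) (fun _ => 2)

lemma sg_cases (k : ℕ) (j : Fin (k + k)) : sg k j = 1 ∨ sg k j = 2 := by
  refine Fin.addCases (fun i => ?_) (fun i => ?_) j
  · left
    exact Fin.addCases_left i
  · right
    exact Fin.addCases_right i

/-- the expansion of the moments -/
lemma moment {d : ℕ} (a : (Fin d → ℕ) → Ei) (S : Finset ℕ) (hS : ∀ n ∈ S, n ≠ 0 ∧ ¬ 3 ∣ n) (v : ℕ → ℂ) (hv : ∀ n, ‖v n‖ ≤ 1) (k : ℕ)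
    (X : Finset (Fin d → ℕ)) :
    ∑ m ∈ X, ‖∑ n ∈ S, v n * FF n (a m)‖ ^ (2 * k) ≤
      ∑ g ∈ Fintype.piFinset (fun _ : Fin (k + k) => S), ‖∑ m ∈ X, FF (∏ j, g j ^ sg k j) (a m)‖ := by
  classical
  obtain ⟨V, hV⟩ : ∃ V : Fin (k + k) → ℕ → ℂ, V = Fin.addCases (fun _ => v) (fun _ => fun n => (starRingEnd ℂ) (v n)) := ⟨_, rfl⟩
  have hV1 : ∀ j n, ‖V j n‖ ≤ 1 := by
    intro j n
    rw [hV]
    refine Fin.addCases (fun i => ?_) (fun i => ?_) j
    · simp only [Fin.addCases_left]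
      exact hv n
    · simp only [Fin.addCases_right, RCLike.norm_conj]
      exact hv n
  have h1 : ∀ m, ((‖∑ n ∈ S, v n * FF n (a m)‖ ^ (2 * k) : ℝ) : ℂ) =
      ∑ g ∈ Fintype.piFinset (fun _ : Fin (k + k) => S), (∏ j, V j (g j)) * FF (∏ j, g j ^ sg k j) (a m) := by
    intro m
    have e1 : ((‖∑ n ∈ S, v n * FF n (a m)‖ ^ (2 * k) : ℝ) : ℂ) = ∏ j : Fin (k + k), ∑ n ∈ S, V j n * FF n (a m) ^ sg k j := by
      rw [Fin.prod_univ_add]
      have e2 : ∀ i : Fin k, ∑ n ∈ S, V (Fin.castAdd k i) n * FF n (a m) ^ sg k (Fin.castAdd k i) = ∑ n ∈ S, v n * FF n (a m) := by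
        intro i
        apply sum_congr rfl
        intro n _
        rw [hV]
        simp only [Fin.addCases_left, sg, pow_one]
      have e3 : ∀ i : Fin k, ∑ n ∈ S, V (Fin.natAdd k i) n * FF n (a m) ^ sg k (Fin.natAdd k i) = (starRingEnd ℂ) (∑ n ∈ S, v n * FF n (a m)) := by
        intro i
        rw [map_sum]
        apply sum_congr rfl
        intro n _
        rw [hV, map_mul, ← sq_conj (FF_val n (a m))]
        simp only [Fin.addCases_right, sg]
      rw [prod_congr rfl (fun i _ => e2 i), prod_congr rfl (fun i _ => e3 i), prod_const, prod_const, card_univ, Fintype.card_fin, ← mul_pow, Complex.mul_conj']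
      push_cast
      rw [pow_mul]
    rw [e1, prod_univ_sum]
    apply sum_congr rfl
    intro g hg
    rw [Fintype.mem_piFinset] at hg
    rw [prod_mul_distrib, FF_prod univ _ (fun j _ => pow_ne_zero _ (hS _ (hg j)).1) (fun j _ => three_pow (hS _ (hg j)).2 _)]
    congr 1
    apply prod_congr rfl
    intro j _
    rw [FF_pow (hS _ (hg j)).1 (hS _ (hg j)).2]
  have h2 : ((∑ m ∈ X, ‖∑ n ∈ S, v n * FF n (a m)‖ ^ (2 * k) : ℝ) : ℂ) =
      ∑ g ∈ Fintype.piFinset (fun _ : Fin (k + k) => S), (∏ j, V j (g j)) * ∑ m ∈ X, FF (∏ j, g j ^ sg k j) (a m) := by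
    rw [Complex.ofReal_sum, sum_congr rfl (fun m _ => h1 m), sum_comm]
    apply sum_congr rfl
    intro g _
    rw [mul_sum]
  have h3 : ‖((∑ m ∈ X, ‖∑ n ∈ S, v n * FF n (a m)‖ ^ (2 * k) : ℝ) : ℂ)‖ ≤
      ∑ g ∈ Fintype.piFinset (fun _ : Fin (k + k) => S), ‖∑ m ∈ X, FF (∏ j, g j ^ sg k j) (a m)‖ := by
    rw [h2]
    refine (norm_sum_le _ _).trans (sum_le_sum fun g _ => ?_)
    rw [norm_mul, norm_prod]
    calc (∏ j, ‖V j (g j)‖) * ‖∑ m ∈ X, FF (∏ j, g j ^ sg k j) (a m)‖ ≤ 1 * ‖∑ m ∈ X, FF (∏ j, g j ^ sg k j) (a m)‖ := by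
          apply mul_le_mul_of_nonneg_right _ (norm_nonneg _)
          exact prod_le_one (fun j _ => norm_nonneg _) (fun j _ => hV1 j _)
      _ = _ := one_mul _
  rw [Complex.norm_real] at h3
  exact (le_abs_self _).trans h3

end Pool.Agent.K7.H57.Cub
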